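import Pool.Agent.H38.PL3.Final3
import Pool.Agent.H16.PF3.Main

/-!
# PL3 Main3: at least three largest cyclic factors, every prime
-/

set_option autoImplicit false

namespace Pool.Agent.H38.PL3

open Finset Pool.Agent.H88.Pl Pool.Agent.H16.PF3

/-- no planar function on a group with an element of order two -/
private theorem no_even {H K : Type*} [AddCommGroup H] [AddCommGroup K] {f : H → K}
    (hf : IsPlanar f) {h : H} (h0 : h ≠ 0) (h2 : h + h = 0) : False := by
  obtain ⟨x, hx⟩ := (hf h h0).2 0
  have hx' : f (h + x) - f x = 0 := hx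
  have h3 : f (h + (h + x)) - f (h + x) = 0 := by
    rw [← add_assoc, h2, zero_add, ← neg_eq_zero, neg_sub]
    exact hx'
  have h4 : h + x = x := (hf h h0).1 (h3.trans hx'.symm)
  exact h0 (by simpa using h4)

/-- no planar function on a group of order `2 ^ r`, `r ≥ 1` -/
theorem no_two {r : ℕ} (hr : r ≠ 0) {H K : Type*} [AddCommGroup H] [AddCommGroup K]
    (hH : Nat.card H = 2 ^ r) {f : H → K} (hf : IsPlanar f) : False := by
  have : Finite H := Nat.finite_of_card_ne_zero (by rw [hH]; positivity)
  have : Fact (Nat.Prime 2) := ⟨Nat.prime_two⟩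
  obtain ⟨x, hx⟩ := exists_prime_addOrderOf_dvd_card' (G := H) 2
    (by rw [hH]; exact dvd_pow_self 2 hr)
  have h0 : x ≠ 0 := by
    rintro rfl
    rw [addOrderOf_zero] at hx
    omega
  have h1 : x + x = 0 := by
    rw [← two_nsmul, ← hx]
    exact addOrderOf_nsmul_eq_zero x
  exact no_even hf h0 h1

/-- the case `p = 3` -/
theorem main_C3 {r e : ℕ} (hr : 3 ≤ r) (he : 2 ≤ e)
    {H K : Type*} [AddCommGroup H] [AddCommGroup K] (hH : Nat.card H = 3 ^ r)
    (hK : Nat.card K = 3 ^ r) (f : H → K) (hf : IsPlanar f)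
    (hexp : AddMonoid.exponent (H × K) = 3 ^ e) :
    3 ^ 3 ≤ Nat.card (Set.range fun g : H × K => 3 ^ (e - 1) • g) := by
  classical
  have hfact : Fact (Nat.Prime 3) := ⟨Nat.prime_three⟩
  have : Finite H := Nat.finite_of_card_ne_zero (by rw [hH]; positivity)
  have : Finite K := Nat.finite_of_card_ne_zero (by rw [hK]; positivity)
  have hA := main_A he hH hK f hf hexp
  by_contra hcon
  push Not at hcon
  set φ : H × K →+ H × K := nsmulAddMonoidHom (3 ^ (e - 1)) with hφ
  have hrange : (Set.range fun g : H × K => 3 ^ (e - 1) • g) = (φ.range : Set (H × K)) := by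
    rw [AddMonoidHom.coe_range]
    rfl
  have hkill : ∀ g : H × K, 3 ^ e • g = 0 := by
    intro g
    rw [← hexp]
    exact AddMonoid.exponent_nsmul_eq_zero g
  have hpe : 3 ^ e = 3 * 3 ^ (e - 1) := by
    rw [← pow_succ']; congr 1; omega
  have hkill' : ∀ x : φ.range, 3 • x = 0 := by
    rintro ⟨x, g, rfl⟩
    apply Subtype.ext
    rw [AddSubgroup.coe_nsmul, hφ]
    simp only [nsmulAddMonoidHom_apply, ZeroMemClass.coe_zero]
    rw [← mul_smul, ← hpe]
    exact hkill g
  have hcard : Nat.card φ.range = 3 ^ 2 := by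
    have h1 : IsPGroup 3 (Multiplicative φ.range) := by
      intro x
      refine ⟨1, ?_⟩
      rw [pow_one]
      exact hkill' x
    obtain ⟨n, hn⟩ := (IsPGroup.iff_card (p := 3)).1 h1
    have hn' : Nat.card φ.range = 3 ^ n := hn
    rw [hrange] at hA hcon
    have h3 : Nat.card φ.range < 3 ^ 3 := hcon
    have h2 : 3 ^ 2 ≤ Nat.card φ.range := hA
    rw [hn', Nat.pow_lt_pow_iff_right (by norm_num)] at h3
    rw [hn', Nat.pow_le_pow_iff_right (by norm_num)] at h2
    have h5 : n = 2 := by omega
    rw [hn', h5]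
  rcases Nat.lt_or_ge r 4 with hr4 | hr4
  · -- the case `r = 3`
    have hr3 : r = 3 := by omega
    subst hr3
    obtain ⟨⟨a⟩, ⟨b⟩⟩ := main_three hH f hf
    have h1 : ∀ g : H × K, 3 • g = 0 := by
      intro g
      refine Prod.ext ?_ ?_
      · apply a.injective
        rw [Prod.smul_fst, map_nsmul, Prod.fst_zero, map_zero]
        funext i
        simp only [Pi.smul_apply, Pi.zero_apply, nsmul_eq_mul]
        rw [ZMod.natCast_self, zero_mul]
      · apply b.injective
        rw [Prod.smul_snd, map_nsmul, Prod.snd_zero, map_zero]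
        funext i
        simp only [Pi.smul_apply, Pi.zero_apply, nsmul_eq_mul]
        rw [ZMod.natCast_self, zero_mul]
    have h2 := AddMonoid.exponent_dvd_of_forall_nsmul_eq_zero h1
    rw [hexp] at h2
    have h3 : 3 ^ e ∣ 3 ^ 1 := by rw [pow_one]; exact h2
    rw [Nat.pow_dvd_pow_iff_le_right (by norm_num)] at h3
    omega
  · have : Fintype H := Fintype.ofFinite H
    have : Fintype K := Fintype.ofFinite K
    have hP : (Pf H K (3 ^ (e - 1))).card = 9 := by
      have h9 : (9 : ℕ) = 3 ^ 2 := by norm_num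
      rw [h9, ← hcard]
      have h1 : ((Pf H K (3 ^ (e - 1)) : Finset (H × K)) : Set (H × K)) =
          (φ.range : Set (H × K)) := by
        rw [← hrange]
        unfold Pf
        ext x
        simp
      rw [← Set.ncard_coe_finset, h1]
      rfl
    exact no_rank_two_three hr4 he (by rw [← Nat.card_eq_fintype_card]; exact hH)
      (by rw [← Nat.card_eq_fintype_card]; exact hK) hf hkill hP

/-- If a planar function `H → K` exists, with `|H| = |K| = p ^ r`, `r ≥ 3`, and
`exp (H × K) = p ^ e`, `e ≥ 2`, then `p ^ (e - 1) (H × K)` has at least `p ^ 3` elements. -/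
theorem main_C {p : ℕ} [Fact p.Prime] {r e : ℕ} (hr : 3 ≤ r) (he : 2 ≤ e)
    {H K : Type*} [AddCommGroup H] [AddCommGroup K] (hH : Nat.card H = p ^ r)
    (hK : Nat.card K = p ^ r) (f : H → K) (hf : IsPlanar f)
    (hexp : AddMonoid.exponent (H × K) = p ^ e) :
    p ^ 3 ≤ Nat.card (Set.range fun g : H × K => p ^ (e - 1) • g) := by
  have hpp := (Fact.out : p.Prime)
  rcases Nat.lt_or_ge p 5 with h5 | h5
  · have h2 := hpp.two_le
    have h4 : p = 2 ∨ p = 3 := by
      have h4 : p ≠ 4 := by
        rintro rfl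
        revert hpp
        norm_num
      omega
    rcases h4 with rfl | rfl
    · exfalso
      exact no_two (by omega) hH hf
    · exact main_C3 hr he hH hK f hf hexp
  · exact main_B h5 hr he hH hK f hf hexp

end Pool.Agent.H38.PL3
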