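import Pool.Agent.H38.PL3.Plane3

/-!
# PL3 Coset: the local inequality for every coset

`coset_flags`: as `good_pairs` in PF3.Transfer, but for an arbitrary coset `x0 + P`: the ordered pairs in `II f m x0` give flags in `(ZMod 3)²`, to which
`plane3` applies; the number of flags on the same line with the same vector is `|NN a b|`.
`coset_ineq`: arithmetic.  `|YY| = 2 n + O`, `O` the number of pairs of `YY` in the same slice, `O ≡ ν (mod 2)`, `ν` the number of diagonal pairs.
-/

set_option autoImplicit false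

namespace Pool.Agent.H38.PL3

open Finset Pool.Agent.H88.Pl Pool.Agent.H16.PF3

private theorem coset_phi0 {p : ℕ} [Fact p.Prime] {A : Type*} [AddCommGroup A] [Finite A]
    (hp : ∀ z : A, p • z = 0) (hc : Nat.card A = p ^ 2) :
    ∃ φ : A ≃+ (ZMod p × ZMod p), ∀ (k : ℕ) (a : A), φ (k • a) = (k : ZMod p) • φ a := by
  let inst : Module (ZMod p) A := AddCommGroup.zmodModule (n := p) hp
  have hpr : p.Prime := Fact.out
  have hfin : Module.Finite (ZMod p) A := Module.Finite.of_finite
  have h1 : Nat.card A = Nat.card (ZMod p) ^ Module.finrank (ZMod p) A :=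
    Module.natCard_eq_pow_finrank
  rw [hc, Nat.card_zmod] at h1
  have h2 : Module.finrank (ZMod p) A = 2 := (Nat.pow_right_injective hpr.two_le h1).symm
  have h3 : Module.finrank (ZMod p) A = Module.finrank (ZMod p) (ZMod p × ZMod p) := by
    rw [h2, Module.finrank_prod, Module.finrank_self]
  let φ : A ≃ₗ[ZMod p] (ZMod p × ZMod p) := LinearEquiv.ofFinrankEq A (ZMod p × ZMod p) h3
  refine ⟨φ.toAddEquiv, ?_⟩
  intro k a
  show φ (k • a) = (k : ZMod p) • φ a
  rw [← map_smul, Nat.cast_smul_eq_nsmul]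

private theorem coset_phi {p : ℕ} [Fact p.Prime] {G : Type*} [AddCommGroup G] [Finite G]
    (S : AddSubgroup G) (hp : ∀ z ∈ S, p • z = 0) (hc : Nat.card S = p ^ 2) :
    ∃ Φ : G → ZMod p × ZMod p, (∀ a ∈ S, ∀ b ∈ S, Φ (a + b) = Φ a + Φ b) ∧
      (∀ a ∈ S, ∀ b ∈ S, Φ a = Φ b → a = b) ∧ (∀ v, ∃ a ∈ S, Φ a = v) ∧
      (∀ a ∈ S, ∀ k : ℕ, Φ (k • a) = (k : ZMod p) • Φ a) := by
  classical
  obtain ⟨φ, hφ⟩ := coset_phi0 (A := S) (fun z => Subtype.ext (hp z.1 z.2)) hc
  refine ⟨fun g => if h : g ∈ S then φ ⟨g, h⟩ else 0, ?_, ?_, ?_, ?_⟩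
  · intro a ha b hb
    simp only [dif_pos ha, dif_pos hb, dif_pos (S.add_mem ha hb)]
    rw [← map_add]
    rfl
  · intro a ha b hb hab
    simp only [dif_pos ha, dif_pos hb] at hab
    have := φ.injective hab
    exact congrArg Subtype.val this
  · intro v
    refine ⟨(φ.symm v).1, (φ.symm v).2, ?_⟩
    simp only [dif_pos (φ.symm v).2]
    exact φ.apply_symm_apply v
  · intro a ha k
    simp only [dif_pos ha, dif_pos (S.nsmul_mem ha k)]
    rw [← hφ]
    rfl

theorem coset_flags {p : ℕ} [Fact p.Prime] {r e : ℕ} {H K : Type*} [AddCommGroup H]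
    [AddCommGroup K] [Fintype H] [Fintype K] [DecidableEq H] [DecidableEq K] (hp : p ≠ 2)
    (he : 2 ≤ e) (hH : Fintype.card H = p ^ r) {f : H → K} (hf : IsPlanar f)
    (hexp : ∀ g : H × K, p ^ e • g = 0) (hP : (Pf H K (p ^ (e - 1))).card = p ^ 2)
    (x0 : H × K) :
    ∃ (y δ : {ab : H × H // ab ∈ II f (p ^ (e - 1)) x0} → ZMod p × ZMod p)
      (X : Finset (ZMod p × ZMod p)), (∀ i, δ i ≠ 0) ∧
      (∀ (k : ZMod p) (x : ZMod p × ZMod p),
        (univ.filter fun i => y i + k • δ i = x).card = if x ∈ X then 2 else 0) ∧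
      (∀ i, ∃ j, y j = y i ∧ δ j = - δ i) ∧
      (∀ i j, y i = y j → δ i = δ j → i = j) ∧
      (∀ i, (univ.filter fun j => δ j = δ i ∧ cr (y j - y i) (δ i) = 0).card =
        (NN f (p ^ (e - 1)) i.1.1 i.1.2).card) := by
  have hpr : p.Prime := Fact.out
  have hident : ∀ (k : ℕ) (x : H × K), ((univ : Finset (H × H)).filter fun ab =>
        gr f ab.1 + gr f ab.2 +
          k • (p ^ (e - 1) • gr f ab.1 - p ^ (e - 1) • gr f ab.2) = x).card =
      ((univ : Finset (H × H)).filter fun ab => gr f ab.1 + gr f ab.2 = x).card := by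
    intro k x
    rw [← ident hp he hH f hf hexp k x]
    congr 1
    ext ab
    rw [mem_filter, mem_filter, smul_sub (p ^ (e - 1))]
  have hpm : p * p ^ (e - 1) = p ^ e := by
    rw [← pow_succ']
    congr 1
    omega
  have hmm : p ^ (e - 1) = p ^ (e - 2) * p := by
    rw [← pow_succ]
    congr 1
    omega
  set m := p ^ (e - 1) with hm
  have hodd : ∀ u : H × K, (2 : ℕ) • u = 0 → p • u = 0 → u = 0 := by
    intro u h2 hpu
    obtain ⟨q, hq⟩ := hpr.odd_of_ne_two hp
    rw [hq, add_smul, mul_comm, mul_smul, h2, smul_zero, zero_add, one_smul] at hpu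
    exact hpu
  set S : AddSubgroup (H × K) := (nsmulAddMonoidHom m : H × K →+ H × K).range with hS
  have hSP : ∀ z, z ∈ S ↔ z ∈ Pf H K m := by
    intro z
    rw [hS, AddMonoidHom.mem_range]
    unfold Pf
    rw [mem_image]
    constructor
    · rintro ⟨g, hg⟩
      exact ⟨g, mem_univ _, hg⟩
    · rintro ⟨g, _, hg⟩
      exact ⟨g, hg⟩
  have hmem : ∀ g : H × K, m • g ∈ S := fun g => by
    rw [hSP]
    exact mem_image_of_mem _ (mem_univ _)
  have hpS : ∀ z ∈ S, p • z = 0 := by
    rintro z ⟨g, rfl⟩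
    show p • (m • g) = 0
    rw [← mul_smul, hpm]
    exact hexp g
  have hmS : ∀ z ∈ S, m • z = 0 := by
    intro z hz
    rw [hmm, mul_smul, hpS z hz, smul_zero]
  have hcard : Nat.card S = p ^ 2 := by
    rw [← hP]
    have h1 : Nat.card S = Nat.card (Pf H K m) := by
      apply Nat.card_congr
      exact Equiv.subtypeEquivRight hSP
    rw [h1, Nat.card_eq_fintype_card, Fintype.card_coe]
  obtain ⟨Φ, hadd, hinj, hsurj, hsmul⟩ := coset_phi S hpS hcard
  have hzero : Φ 0 = 0 := by
    have := hsmul 0 S.zero_mem 0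
    simpa using this
  have hneg : ∀ a ∈ S, Φ (-a) = - Φ a := by
    intro a ha
    have h1 := hadd a ha (-a) (S.neg_mem ha)
    rw [add_neg_cancel, hzero] at h1
    exact (neg_eq_of_add_eq_zero_right h1.symm).symm
  let I := {ab : H × H // ab ∈ II f m x0}
  have hII : ∀ ab : H × H, ab ∈ II f m x0 ↔
      m • gr f ab.1 ≠ m • gr f ab.2 ∧ gr f ab.1 + gr f ab.2 - x0 ∈ S := by
    intro ab
    unfold II
    rw [mem_filter, hSP]
    simp only [mem_univ, true_and]
  let y : I → ZMod p × ZMod p := fun i => Φ (gr f i.1.1 + gr f i.1.2 - x0)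
  let δ : I → ZMod p × ZMod p := fun i => Φ (m • gr f i.1.1 - m • gr f i.1.2)
  have hdS : ∀ a b : H, m • gr f a - m • gr f b ∈ S := fun a b => S.sub_mem (hmem _) (hmem _)
  have hne : ∀ i : I, δ i ≠ 0 := by
    intro i h
    have h1 := ((hII i.1).mp i.2).1
    apply h1
    have h2 : Φ (m • gr f i.1.1 - m • gr f i.1.2) = Φ 0 := by rw [hzero]; exact h
    exact sub_eq_zero.mp (hinj _ (hdS _ _) _ S.zero_mem h2)
  -- counting pairs with a given sum
  have hcount : ∀ (k : ℕ) (x : H × K), x - x0 ∈ S →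
      ((II f m x0).filter fun ab =>
        gr f ab.1 + gr f ab.2 + k • (m • gr f ab.1 - m • gr f ab.2) = x).card =
      ((II f m x0).filter fun ab => gr f ab.1 + gr f ab.2 = x).card := by
    intro k x hx
    have hk : ∀ k : ℕ, ((II f m x0).filter fun ab =>
          gr f ab.1 + gr f ab.2 + k • (m • gr f ab.1 - m • gr f ab.2) = x).card +
        ((univ : Finset (H × H)).filter fun ab => m • gr f ab.1 = m • gr f ab.2 ∧
          gr f ab.1 + gr f ab.2 = x).card =
        ((univ : Finset (H × H)).filter fun ab =>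
          gr f ab.1 + gr f ab.2 + k • (m • gr f ab.1 - m • gr f ab.2) = x).card := by
      intro k
      rw [← card_union_of_disjoint]
      · congr 1
        ext ab
        simp only [mem_union, mem_filter, hII, mem_univ, true_and]
        constructor
        · rintro (⟨⟨_, _⟩, h3⟩ | ⟨h1, h2⟩)
          · exact h3
          · rw [h1, sub_self, smul_zero, add_zero]
            exact h2
        · intro h3
          by_cases h1 : m • gr f ab.1 = m • gr f ab.2
          · right
            refine ⟨h1, ?_⟩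
            rw [h1, sub_self, smul_zero, add_zero] at h3
            exact h3
          · left
            refine ⟨⟨h1, ?_⟩, h3⟩
            have h4 : gr f ab.1 + gr f ab.2 - x0 =
                (x - x0) - k • (m • gr f ab.1 - m • gr f ab.2) := by
              rw [← h3]
              abel
            rw [h4]
            exact S.sub_mem hx (S.nsmul_mem (hdS _ _) k)
      · rw [disjoint_left]
        intro ab h1 h2
        exact ((hII ab).mp (mem_filter.mp h1).1).1 (mem_filter.mp h2).2.1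
    have e1 := hk k
    have e2 := hk 0
    have e3 := hident k x
    have e4 : ((univ : Finset (H × H)).filter fun ab =>
          gr f ab.1 + gr f ab.2 + 0 • (m • gr f ab.1 - m • gr f ab.2) = x).card =
        ((univ : Finset (H × H)).filter fun ab => gr f ab.1 + gr f ab.2 = x).card := by
      congr 1
      ext ab
      simp only [mem_filter, zero_smul, add_zero]
    have e5 : ((II f m x0).filter fun ab =>
          gr f ab.1 + gr f ab.2 + 0 • (m • gr f ab.1 - m • gr f ab.2) = x).card =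
        ((II f m x0).filter fun ab => gr f ab.1 + gr f ab.2 = x).card := by
      congr 1
      ext ab
      simp only [mem_filter, zero_smul, add_zero]
    omega
  have hswap : ∀ i : I, (i.1.2, i.1.1) ∈ II f m x0 := by
    intro i
    have h1 := (hII i.1).mp i.2
    rw [hII]
    exact ⟨fun h => h1.1 h.symm, by rw [add_comm]; exact h1.2⟩
  have htwo : ∀ i : I, ((II f m x0).filter fun ab =>
      gr f ab.1 + gr f ab.2 = gr f i.1.1 + gr f i.1.2).card = 2 := by
    intro i
    have h1 := (hII i.1).mp i.2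
    have hne' : i.1.1 ≠ i.1.2 := fun h => h1.1 (by rw [h])
    have h2 : ((II f m x0).filter fun ab =>
        gr f ab.1 + gr f ab.2 = gr f i.1.1 + gr f i.1.2) = {i.1, (i.1.2, i.1.1)} := by
      ext ab
      rw [mem_filter, mem_insert, mem_singleton]
      constructor
      · rintro ⟨_, h3⟩
        rcases sidon hf h3 with ⟨h4, h5⟩ | ⟨h4, h5⟩
        · left
          exact Prod.ext h4 h5
        · right
          exact Prod.ext h4 h5
      · rintro (h3 | h3)
        · rw [h3]
          exact ⟨i.2, rfl⟩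
        · rw [h3]
          exact ⟨hswap i, add_comm _ _⟩
    rw [h2, card_pair]
    intro h3
    exact hne' (congrArg Prod.fst h3)
  refine ⟨y, δ, univ.image y, hne, ?_, ?_, ?_, ?_⟩
  · intro k v
    obtain ⟨z, hz, hzv⟩ := hsurj v
    have hkk : ((k.val : ℕ) : ZMod p) = k := ZMod.natCast_zmod_val k
    have hiff : ∀ i : I, y i + k • δ i = v ↔
        gr f i.1.1 + gr f i.1.2 + k.val • (m • gr f i.1.1 - m • gr f i.1.2) = x0 + z := by
      intro i
      have h1 := ((hII i.1).mp i.2).2
      have h2 : y i + k • δ i =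
          Φ (gr f i.1.1 + gr f i.1.2 - x0 + k.val • (m • gr f i.1.1 - m • gr f i.1.2)) := by
        rw [hadd _ h1 _ (S.nsmul_mem (hdS _ _) _), hsmul _ (hdS _ _), hkk]
      rw [h2, ← hzv]
      constructor
      · intro h3
        have h4 := hinj _ (S.add_mem h1 (S.nsmul_mem (hdS _ _) _)) _ hz h3
        rw [← h4]
        abel
      · intro h3
        congr 1
        have h4 : gr f i.1.1 + gr f i.1.2 - x0 + k.val • (m • gr f i.1.1 - m • gr f i.1.2)
            = (gr f i.1.1 + gr f i.1.2 + k.val • (m • gr f i.1.1 - m • gr f i.1.2)) - x0 := by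
          abel
        rw [h4, h3]
        abel
    have h5 : (univ.filter fun i : I => y i + k • δ i = v).card =
        ((II f m x0).filter fun ab =>
          gr f ab.1 + gr f ab.2 + k.val • (m • gr f ab.1 - m • gr f ab.2) = x0 + z).card := by
      refine card_bij (fun i _ => i.1) ?_ ?_ ?_
      · intro i hi
        rw [mem_filter]
        exact ⟨i.2, (hiff i).mp (mem_filter.mp hi).2⟩
      · intro i _ j _ h
        exact Subtype.ext h
      · intro ab hab
        have hab' := mem_filter.mp hab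
        exact ⟨⟨ab, hab'.1⟩, mem_filter.mpr ⟨mem_univ _, (hiff ⟨ab, hab'.1⟩).mpr hab'.2⟩, rfl⟩
    rw [h5, hcount _ _ (by rw [add_sub_cancel_left]; exact hz)]
    split_ifs with hv
    · obtain ⟨i, _, hi⟩ := mem_image.mp hv
      have h6 : gr f i.1.1 + gr f i.1.2 = x0 + z := by
        have h7 := hinj _ ((hII i.1).mp i.2).2 _ hz (hi.trans hzv.symm)
        rw [← h7]
        abel
      rw [← h6]
      exact htwo i
    · rw [card_eq_zero, filter_eq_empty_iff]
      intro ab hab h6
      apply hv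
      rw [mem_image]
      refine ⟨⟨ab, hab⟩, mem_univ _, ?_⟩
      show Φ (gr f ab.1 + gr f ab.2 - x0) = v
      rw [h6, add_sub_cancel_left, hzv]
  · intro i
    refine ⟨⟨(i.1.2, i.1.1), hswap i⟩, ?_, ?_⟩
    · show Φ (gr f i.1.2 + gr f i.1.1 - x0) = Φ (gr f i.1.1 + gr f i.1.2 - x0)
      rw [add_comm (gr f i.1.2)]
    · show Φ (m • gr f i.1.2 - m • gr f i.1.1) = - Φ (m • gr f i.1.1 - m • gr f i.1.2)
      rw [← hneg _ (hdS _ _)]
      congr 1
      abel
  · intro i j hy hd
    have h1 := hinj _ ((hII i.1).mp i.2).2 _ ((hII j.1).mp j.2).2 hy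
    have h2 : gr f i.1.1 + gr f i.1.2 = gr f j.1.1 + gr f j.1.2 := sub_left_injective h1
    have h3 := hinj _ (hdS _ _) _ (hdS _ _) hd
    rcases sidon hf h2 with ⟨h4, h5⟩ | ⟨h4, h5⟩
    · exact Subtype.ext (Prod.ext h4 h5)
    · exfalso
      rw [← h4, ← h5] at h3
      apply ((hII i.1).mp i.2).1
      rw [← sub_eq_zero]
      apply hodd _ _ (hpS _ (hdS _ _))
      rw [two_smul]
      nth_rewrite 2 [h3]
      abel
  · intro i0
    have hm0 := (hII i0.1).mp i0.2
    have h0 := hm0.1
    obtain ⟨τ, hτ⟩ : ∃ τ, τ = m • gr f i0.1.1 - m • gr f i0.1.2 := ⟨_, rfl⟩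
    have hτS : τ ∈ S := by rw [hτ]; exact hdS _ _
    have hd0 : δ i0 = Φ τ := by rw [hτ]
    refine card_bij (fun i _ => i.1) ?_ ?_ ?_
    · intro i hi
      obtain ⟨_, h1, h2⟩ := mem_filter.mp hi
      rw [mem_line_iff (hne _)] at h2
      obtain ⟨k, hk⟩ := h2
      rw [hd0] at h1 hk
      have h3 : m • gr f i.1.1 - m • gr f i.1.2 = τ := hinj _ (hdS _ _) _ hτS h1
      have h4 : gr f i.1.1 + gr f i.1.2 - x0 = (gr f i0.1.1 + gr f i0.1.2 - x0) + k.val • τ := by
        apply hinj _ ((hII i.1).mp i.2).2 _ (S.add_mem hm0.2 (S.nsmul_mem hτS _))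
        rw [hadd _ hm0.2 _ (S.nsmul_mem hτS _), hsmul _ hτS, ZMod.natCast_zmod_val]
        exact hk
      have h5 : gr f i.1.1 + gr f i.1.2 = gr f i0.1.1 + gr f i0.1.2 + k.val • τ := by
        have h5' : gr f i.1.1 + gr f i.1.2 = (gr f i.1.1 + gr f i.1.2 - x0) + x0 := by abel
        rw [h5', h4]
        abel
      have h6 : m • gr f i.1.1 + m • gr f i.1.2 = m • gr f i0.1.1 + m • gr f i0.1.2 := by
        rw [← smul_add, h5, smul_add, smul_add, smul_comm m k.val τ, hmS τ hτS, smul_zero,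
          add_zero]
      have h7 : m • gr f i.1.1 = m • gr f i0.1.1 := by
        rw [← sub_eq_zero]
        apply hodd _ _ (hpS _ (hdS _ _))
        have h8 : (2 : ℕ) • (m • gr f i.1.1 - m • gr f i0.1.1) =
            (m • gr f i.1.1 + m • gr f i.1.2) + (m • gr f i.1.1 - m • gr f i.1.2)
              - (2 : ℕ) • (m • gr f i0.1.1) := by
          rw [two_smul, two_smul]
          abel
        rw [h8, h6, h3, hτ, two_smul]
        abel
      have h9 : m • gr f i.1.2 = m • gr f i0.1.2 := by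
        rw [h7] at h6
        exact add_left_cancel h6
      classical
      unfold NN
      rw [mem_filter]
      exact ⟨mem_univ _, h7, h9, k.val, by rw [← hτ]; exact h5⟩
    · intro i _ j _ h
      exact Subtype.ext h
    · intro cd hcd
      classical
      unfold NN at hcd
      obtain ⟨_, h1, h2, k, hk⟩ := mem_filter.mp hcd
      rw [← hτ] at hk
      have h3 : gr f cd.1 + gr f cd.2 - x0 = (gr f i0.1.1 + gr f i0.1.2 - x0) + k • τ := by
        rw [hk]
        abel
      have h4 : cd ∈ II f m x0 := by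
        rw [hII]
        refine ⟨?_, ?_⟩
        · rw [h1, h2]
          exact h0
        · rw [h3]
          exact S.add_mem hm0.2 (S.nsmul_mem hτS k)
      refine ⟨⟨cd, h4⟩, ?_, rfl⟩
      rw [mem_filter]
      refine ⟨mem_univ _, ?_, ?_⟩
      · show Φ (m • gr f cd.1 - m • gr f cd.2) = Φ (m • gr f i0.1.1 - m • gr f i0.1.2)
        rw [h1, h2]
      · rw [mem_line_iff (hne _)]
        refine ⟨(k : ZMod p), ?_⟩
        rw [hd0]
        show Φ (gr f cd.1 + gr f cd.2 - x0) = Φ (gr f i0.1.1 + gr f i0.1.2 - x0) +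
          (k : ZMod p) • Φ τ
        rw [h3, hadd _ hm0.2 _ (S.nsmul_mem hτS _), hsmul _ hτS]

private theorem coset_parity {H K : Type*} [AddCommGroup H] [AddCommGroup K] [Fintype H]
    [Fintype K] [DecidableEq H] [DecidableEq K] (f : H → K) (m : ℕ) (x0 : H × K) :
    ∃ k : ℕ, ((YY f m x0).filter fun ab => m • gr f ab.1 = m • gr f ab.2).card =
      ((YY f m x0).filter fun ab => ab.1 = ab.2).card + 2 * k := by
  have h1 := card_filter_add_card_filter_not
    (s := (YY f m x0).filter fun ab => m • gr f ab.1 = m • gr f ab.2) (fun ab => ab.1 = ab.2)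
  have h2 : ((YY f m x0).filter fun ab => m • gr f ab.1 = m • gr f ab.2).filter
      (fun ab => ab.1 = ab.2) = (YY f m x0).filter fun ab => ab.1 = ab.2 := by
    ext ab
    simp only [mem_filter]
    constructor
    · rintro ⟨⟨h3, _⟩, h4⟩
      exact ⟨h3, h4⟩
    · rintro ⟨h3, h4⟩
      exact ⟨⟨h3, by rw [h4]⟩, h4⟩
  rw [h2] at h1
  set s := ((YY f m x0).filter fun ab => m • gr f ab.1 = m • gr f ab.2).filter
    (fun ab => ¬ ab.1 = ab.2) with hs
  have h3 : ∑ _ab ∈ s, (1 : ZMod 2) = 0 := by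
    refine sum_involution (fun ab _ => (ab.2, ab.1)) ?_ ?_ ?_ ?_
    · intro ab _
      decide
    · intro ab hab _ h4
      have h5 := (mem_filter.mp hab).2
      exact h5 (congrArg Prod.snd h4)
    · intro ab hab
      obtain ⟨h4, h5⟩ := mem_filter.mp hab
      obtain ⟨h6, h7⟩ := mem_filter.mp h4
      refine mem_filter.mpr ⟨mem_filter.mpr ⟨?_, h7.symm⟩, fun h => h5 h.symm⟩
      unfold YY at h6 ⊢
      rw [mem_filter] at h6 ⊢
      refine ⟨mem_univ _, ?_⟩
      show gr f ab.2 + gr f ab.1 - x0 ∈ Pf H K m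
      rw [add_comm]
      exact h6.2
    · intro ab _
      rfl
  have h4 : ((s.card : ℕ) : ZMod 2) = 0 := by
    rw [← h3, sum_const, nsmul_eq_mul, mul_one]
  rw [ZMod.natCast_eq_zero_iff] at h4
  obtain ⟨k, hk⟩ := h4
  exact ⟨k, by omega⟩

private theorem coset_arith {n O k : ℕ} {T : ℤ} (h : FF n T) (ν : ℕ) (hO : O = ν + 2 * k) :
    4 * T + 45 ≤ 5 * (((2 * n + O : ℕ) : ℤ) - 9) ^ 2 + 20 * (O : ℤ) + 5 * (ν : ℤ) := by
  have hO0 : (0 : ℤ) ≤ O := Int.natCast_nonneg O
  have hν0 : (0 : ℤ) ≤ ν := Int.natCast_nonneg ν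
  push_cast
  rcases h with ⟨rfl, h⟩ | ⟨rfl, h⟩ | ⟨rfl, h⟩ | ⟨rfl, h⟩ | ⟨rfl, h⟩ | ⟨rfl, h⟩
  · push_cast
    nlinarith [sq_nonneg ((O : ℤ) - 7)]
  · push_cast
    rcases Nat.lt_or_ge O 2 with h2 | h2
    · interval_cases O
      · push_cast
        linarith
      · have h3 : 1 ≤ ν := by omega
        have h4 : (1 : ℤ) ≤ ν := by exact_mod_cast h3
        push_cast
        linarith
    · have h3 : (2 : ℤ) ≤ O := by exact_mod_cast h2
      nlinarith [mul_nonneg hO0 (sub_nonneg.mpr h3)]
  · push_cast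
    nlinarith
  · push_cast
    nlinarith
  · push_cast
    nlinarith
  · push_cast
    nlinarith

theorem coset_ineq {r e : ℕ} {H K : Type*} [AddCommGroup H] [AddCommGroup K] [Fintype H]
    [Fintype K] [DecidableEq H] [DecidableEq K] (he : 2 ≤ e) (hH : Fintype.card H = 3 ^ r)
    {f : H → K} (hf : IsPlanar f) (hexp : ∀ g : H × K, 3 ^ e • g = 0)
    (hP : (Pf H K (3 ^ (e - 1))).card = 9) (x0 : H × K) :
    4 * (∑ ab ∈ II f (3 ^ (e - 1)) x0, (3 - ((NN f (3 ^ (e - 1)) ab.1 ab.2).card : ℤ))) + 45 ≤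
      5 * (((YY f (3 ^ (e - 1)) x0).card : ℤ) - 9) ^ 2 +
      20 * (((YY f (3 ^ (e - 1)) x0).filter
        fun ab => 3 ^ (e - 1) • gr f ab.1 = 3 ^ (e - 1) • gr f ab.2).card : ℤ) +
      5 * (((YY f (3 ^ (e - 1)) x0).filter fun ab => ab.1 = ab.2).card : ℤ) := by
  have : Fact (Nat.Prime 3) := ⟨Nat.prime_three⟩
  have hfl := coset_flags (p := 3) (by norm_num) he hH hf hexp (by rw [hP]; norm_num) x0
  generalize 3 ^ (e - 1) = m at *
  obtain ⟨y, δ, X, ne, fib, ex, inj, hNN⟩ := hfl
  obtain ⟨n, hn, hT⟩ := plane3 y δ X ne fib ex inj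
  have e1 : ∑ i : {ab : H × H // ab ∈ II f m x0},
      (3 - ((univ.filter fun j => δ j = δ i ∧ cr (y j - y i) (δ i) = 0).card : ℤ)) =
      ∑ ab ∈ II f m x0, (3 - ((NN f m ab.1 ab.2).card : ℤ)) := by
    rw [← sum_coe_sort (II f m x0)]
    refine sum_congr rfl fun i _ => ?_
    rw [hNN i]
  rw [e1] at hT
  rw [Fintype.card_coe] at hn
  have hY : (YY f m x0).card = 2 * n +
      ((YY f m x0).filter fun ab => m • gr f ab.1 = m • gr f ab.2).card := by
    rw [← hn]
    have h1 := card_filter_add_card_filter_not (s := YY f m x0)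
      (fun ab => m • gr f ab.1 = m • gr f ab.2)
    have h2 : (YY f m x0).filter (fun ab => ¬ m • gr f ab.1 = m • gr f ab.2) = II f m x0 := by
      ext ab
      unfold YY II
      simp only [mem_filter, mem_univ, true_and]
      exact and_comm
    rw [h2] at h1
    omega
  obtain ⟨k, hk⟩ := coset_parity f m x0
  rw [hY]
  exact coset_arith hT _ hk

end Pool.Agent.H38.PL3
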