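import Pool.Agent.H16.PF3.Transfer

/-!
# PL3 (MP_460e77_co, helper38): at least three largest cyclic factors for `p = 3`: definitions

Continues `Pool.Agent.H16.PF3` (helper16): `f : H → K` planar, `|H| = |K| = q = 3 ^ r`, `G = H × K` of exponent `3 ^ e`, `e ≥ 2`,
`m = 3 ^ (e - 1)`, `gr f h = (h, f h)`, `P = Pf H K m = m G`; suppose `|P| = 9`.
`NN f m a b` (PF3.Defs), for `a`, `b` in different slices (`m • gr f a ≠ m • gr f b`).
-/

set_option autoImplicit false

namespace Pool.Agent.H38.PL3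

open Finset Pool.Agent.H88.Pl Pool.Agent.H16.PF3

variable {H K : Type*} [AddCommGroup H] [AddCommGroup K] [Fintype H] [Fintype K]
  [DecidableEq H] [DecidableEq K]

/-- ordered pairs in the same slice -/
def EE (f : H → K) (m : ℕ) : Finset (H × H) :=
  univ.filter fun ab => m • gr f ab.1 = m • gr f ab.2

/-- ordered pairs in different slices -/
def DD (f : H → K) (m : ℕ) : Finset (H × H) :=
  univ.filter fun ab => m • gr f ab.1 ≠ m • gr f ab.2

/-- the possible values of half the number of flags, `n`, and the bound for the defect `T` -/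
def FF (n : ℕ) (T : ℤ) : Prop :=
  (n = 0 ∧ T = 0) ∨ (n = 3 ∧ T = 0) ∨ (n = 6 ∧ T = 0) ∨ (n = 7 ∧ T ≤ 20) ∨ (n = 8 ∧ T ≤ 32) ∨
    (n = 9 ∧ T ≤ 36)

end Pool.Agent.H38.PL3
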