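import Pool.Agent.H38.PL3.MomA

/-!
# PL3 MomB: the characters trivial on `P`

For `w ∈ P` and any `χ`: `∑_{w ∈ P} χ w = |P|` if `χ` is trivial on `P` and `0` otherwise (private `low_zero` in PF3.Low: copy).  So
`|P| ∑_{χ trivial on P} M(χ)² = ∑_χ ∑_{w ∈ P} χ w M(χ)²`, `M(χ) = ∑_{(a,b) ∈ EE} χ (gr a - gr b)` (`us_sq`, a real number), and with
`AddChar.sum_apply_eq_ite` this is `|G|` times the number `Q` of `(w, (a,b), (c,d)) ∈ P × EE × EE` with `w + (gr a - gr b) + (gr c - gr d) = 0`.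
For `w = 0`: by `sidon` (PF3) either `a = b`, `c = d`: `|H|²`, or `a = d`, `b = c`, `a ≠ b`: `|EE| - |H|`.  For `w ≠ 0`: `a = b` gives at most `|H|` (for
given `a` the pair `(c, d)` is unique by `diff_unique`, `c ≠ d` as `w ≠ 0`), `c = d` in the same way at most `|H|` (`a ≠ b`), and `a ≠ b`, `c ≠ d`: the pair `(c, d)` is determined by
`(a, b)` (`diff_unique`): at most `|EE| - |H|`.  So `Q ≤ |H|² + |EE| - |H| + (|P| - 1) (|EE| + |H|)`.
-/

set_option autoImplicit false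

namespace Pool.Agent.H38.PL3

open Finset Pool.Agent.H88.Pl Pool.Agent.H16.PF3

variable {H K : Type*} [AddCommGroup H] [AddCommGroup K] [Fintype H] [Fintype K]
  [DecidableEq H] [DecidableEq K]

private theorem mB_zero {A : Type*} [AddCommGroup A] (χ : AddChar A ℂ) (S : Finset A)
    (g : A) (h1 : ∀ x ∈ S, x + g ∈ S) (h2 : ∀ x ∈ S, x - g ∈ S) (hg : χ g ≠ 1) :
    ∑ x ∈ S, χ x = 0 := by
  have e : ∑ x ∈ S, χ x = (∑ x ∈ S, χ x) * χ g := by
    rw [sum_mul]
    symm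
    apply sum_bij (fun x _ => x + g)
    · exact h1
    · intro a _ b _ hab
      exact add_right_cancel hab
    · intro b hb
      exact ⟨b - g, h2 b hb, sub_add_cancel b g⟩
    · intro a _
      exact (AddChar.map_add_eq_mul χ a g).symm
  have e2 : (∑ x ∈ S, χ x) * (1 - χ g) = 0 := by
    rw [mul_sub, mul_one, ← e, sub_self]
  exact (mul_eq_zero.mp e2).resolve_right (sub_ne_zero.mpr (Ne.symm hg))

private theorem mB_mem {m : ℕ} {x : H × K} : x ∈ Pf H K m ↔ ∃ g : H × K, m • g = x := by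
  unfold Pf
  simp only [mem_image, mem_univ, true_and]

private theorem mB_P_sum (m : ℕ) (χ : AddChar (H × K) ℂ)
    [Decidable (∀ w ∈ Pf H K m, χ w = 1)] :
    ∑ w ∈ Pf H K m, χ w =
      if (∀ w ∈ Pf H K m, χ w = 1) then ((Pf H K m).card : ℂ) else 0 := by
  split_ifs with h
  · rw [sum_congr rfl h]
    simp
  · push Not at h
    obtain ⟨g, hg, hg1⟩ := h
    obtain ⟨g0, rfl⟩ := mB_mem.mp hg
    apply mB_zero χ _ (m • g0) _ _ hg1
    · intro x hx
      obtain ⟨x0, rfl⟩ := mB_mem.mp hx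
      exact mB_mem.mpr ⟨x0 + g0, smul_add m x0 g0⟩
    · intro x hx
      obtain ⟨x0, rfl⟩ := mB_mem.mp hx
      exact mB_mem.mpr ⟨x0 - g0, smul_sub m x0 g0⟩

omit [Fintype K] in
private theorem mB_diag (f : H → K) (m : ℕ) :
    ((EE f m).filter fun ab => ab.1 ≠ ab.2).card + Fintype.card H = (EE f m).card := by
  have e : (EE f m).filter (fun ab => ab.1 = ab.2) = univ.image (fun a : H => (a, a)) := by
    ext ⟨a, b⟩
    simp only [EE, mem_filter, mem_univ, true_and, mem_image, Prod.mk.injEq]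
    constructor
    · rintro ⟨_, h⟩
      exact ⟨a, rfl, h⟩
    · rintro ⟨c, rfl, rfl⟩
      exact ⟨rfl, rfl⟩
  have h1 := card_filter_add_card_filter_not (s := EE f m) (fun ab => ab.1 = ab.2)
  rw [e, card_image_of_injective _ (fun a b h => congrArg Prod.fst h), card_univ] at h1
  rw [add_comm]
  exact h1

omit [Fintype K] in
private theorem mB_S0 {f : H → K} (hf : IsPlanar f) (m : ℕ) :
    ((EE f m ×ˢ EE f m).filter fun q =>
        (0 : H × K) + (gr f q.1.1 - gr f q.1.2 + (gr f q.2.1 - gr f q.2.2)) = 0).card ≤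
      Fintype.card H ^ 2 + ((EE f m).filter fun ab => ab.1 ≠ ab.2).card := by
  have hsub : ((EE f m ×ˢ EE f m).filter fun q =>
        (0 : H × K) + (gr f q.1.1 - gr f q.1.2 + (gr f q.2.1 - gr f q.2.2)) = 0) ⊆
      (univ.image fun ac : H × H => ((ac.1, ac.1), (ac.2, ac.2))) ∪
        (((EE f m).filter fun ab => ab.1 ≠ ab.2).image
          fun ab : H × H => ((ab.1, ab.2), (ab.2, ab.1))) := by
    rintro ⟨⟨a, b⟩, ⟨c, d⟩⟩ hq
    obtain ⟨hq1, hq2⟩ := mem_filter.mp hq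
    obtain ⟨hq3, _⟩ := mem_product.mp hq1
    simp only at hq2 hq3
    have h1 : gr f a + gr f c = gr f b + gr f d := by
      rw [zero_add] at hq2
      have h2 : gr f a + gr f c - (gr f b + gr f d) = 0 := by
        rw [← hq2]
        abel
      exact sub_eq_zero.mp h2
    rw [mem_union, mem_image, mem_image]
    rcases sidon hf h1 with ⟨h2, h3⟩ | ⟨h2, h3⟩
    · left
      subst h2 h3
      exact ⟨(a, c), mem_univ _, rfl⟩
    · subst h2 h3
      by_cases hac : a = c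
      · left
        subst hac
        exact ⟨(a, a), mem_univ _, rfl⟩
      · right
        exact ⟨(a, c), mem_filter.mpr ⟨hq3, hac⟩, rfl⟩
  refine (card_le_card hsub).trans ((card_union_le _ _).trans (Nat.add_le_add ?_ card_image_le))
  refine card_image_le.trans (le_of_eq ?_)
  rw [card_univ, Fintype.card_prod, sq]

omit [Fintype K] in
private theorem mB_S1 {f : H → K} (hf : IsPlanar f) (m : ℕ) {w : H × K} (hw : w ≠ 0) :
    ((EE f m ×ˢ EE f m).filter fun q =>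
        w + (gr f q.1.1 - gr f q.1.2 + (gr f q.2.1 - gr f q.2.2)) = 0).card ≤
      ((EE f m).filter fun ab => ab.1 ≠ ab.2).card + Fintype.card H + Fintype.card H := by
  set S := (EE f m ×ˢ EE f m).filter fun q =>
        w + (gr f q.1.1 - gr f q.1.2 + (gr f q.2.1 - gr f q.2.2)) = 0 with hS
  have hsub : S ⊆ (S.filter fun q => q.1.1 ≠ q.1.2 ∧ q.2.1 ≠ q.2.2) ∪
      (S.filter fun q => q.2.1 = q.2.2) ∪ (S.filter fun q => q.1.1 = q.1.2) := by
    intro q hq
    rw [mem_union, mem_union]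
    by_cases h1 : q.1.1 = q.1.2
    · exact Or.inr (mem_filter.mpr ⟨hq, h1⟩)
    · by_cases h2 : q.2.1 = q.2.2
      · exact Or.inl (Or.inr (mem_filter.mpr ⟨hq, h2⟩))
      · exact Or.inl (Or.inl (mem_filter.mpr ⟨hq, h1, h2⟩))
  have hA : (S.filter fun q => q.1.1 ≠ q.1.2 ∧ q.2.1 ≠ q.2.2).card ≤
      ((EE f m).filter fun ab => ab.1 ≠ ab.2).card := by
    apply card_le_card_of_injOn (fun q => q.1)
    · intro q hq
      obtain ⟨h1, h2, _⟩ := mem_filter.mp hq
      obtain ⟨h3, _⟩ := mem_filter.mp h1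
      exact mem_filter.mpr ⟨(mem_product.mp h3).1, h2⟩
    · rintro ⟨⟨a, b⟩, ⟨c, d⟩⟩ hq ⟨⟨a', b'⟩, ⟨c', d'⟩⟩ hq' heq
      obtain ⟨h1, h2, h3⟩ := mem_filter.mp hq
      obtain ⟨h1', _, _⟩ := mem_filter.mp hq'
      have h4 := (mem_filter.mp h1).2
      have h4' := (mem_filter.mp h1').2
      simp only at h2 h3 h4 h4' heq
      obtain ⟨rfl, rfl⟩ := Prod.mk.inj heq
      have h5 : gr f c - gr f d = gr f c' - gr f d' := by
        have h6 := h4.trans h4'.symm
        exact add_left_cancel (add_left_cancel h6)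
      obtain ⟨rfl, rfl⟩ := diff_unique hf h5 h3
      rfl
  have hB : (S.filter fun q => q.2.1 = q.2.2).card ≤ Fintype.card H := by
    rw [← card_univ]
    apply card_le_card_of_injOn (fun q => q.2.1) (fun _ _ => mem_univ _)
    rintro ⟨⟨a, b⟩, ⟨c, d⟩⟩ hq ⟨⟨a', b'⟩, ⟨c', d'⟩⟩ hq' heq
    obtain ⟨h1, h2⟩ := mem_filter.mp hq
    obtain ⟨h1', h2'⟩ := mem_filter.mp hq'
    have h4 := (mem_filter.mp h1).2
    have h4' := (mem_filter.mp h1').2
    simp only at h2 h2' h4 h4' heq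
    subst h2 h2' heq
    have h5 : gr f a - gr f b = gr f a' - gr f b' := by
      have h6 := h4.trans h4'.symm
      exact add_right_cancel (add_left_cancel h6)
    have h7 : a ≠ b := by
      rintro rfl
      apply hw
      rw [sub_self, sub_self, add_zero, add_zero] at h4
      exact h4
    obtain ⟨rfl, rfl⟩ := diff_unique hf h5 h7
    rfl
  have hC : (S.filter fun q => q.1.1 = q.1.2).card ≤ Fintype.card H := by
    rw [← card_univ]
    apply card_le_card_of_injOn (fun q => q.1.1) (fun _ _ => mem_univ _)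
    rintro ⟨⟨a, b⟩, ⟨c, d⟩⟩ hq ⟨⟨a', b'⟩, ⟨c', d'⟩⟩ hq' heq
    obtain ⟨h1, h2⟩ := mem_filter.mp hq
    obtain ⟨h1', h2'⟩ := mem_filter.mp hq'
    have h4 := (mem_filter.mp h1).2
    have h4' := (mem_filter.mp h1').2
    simp only at h2 h2' h4 h4' heq
    subst h2 h2' heq
    have h5 : gr f c - gr f d = gr f c' - gr f d' := by
      have h6 := h4.trans h4'.symm
      exact add_left_cancel (add_left_cancel h6)
    have h7 : c ≠ d := by
      rintro rfl
      apply hw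
      rw [sub_self, sub_self, add_zero, add_zero] at h4
      exact h4
    obtain ⟨rfl, rfl⟩ := diff_unique hf h5 h7
    rfl
  refine (card_le_card hsub).trans ((card_union_le _ _).trans ?_)
  refine Nat.add_le_add ((card_union_le _ _).trans ?_) hC
  exact Nat.add_le_add hA hB

private theorem mB_id (f : H → K) (m : ℕ) :
    ((Pf H K m).card : ℝ) *
      ∑ χ ∈ univ.filter (fun χ : AddChar (H × K) ℂ => ∀ w ∈ Pf H K m, χ w = 1),
        (∑ w ∈ Pf H K m, ‖us f m χ w‖ ^ 2) ^ 2 =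
      (Fintype.card (H × K) : ℝ) * ((∑ w ∈ Pf H K m, ((EE f m ×ˢ EE f m).filter fun q =>
        w + (gr f q.1.1 - gr f q.1.2 + (gr f q.2.1 - gr f q.2.2)) = 0).card : ℕ) : ℝ) := by
  classical
  have h1 : ∀ χ : AddChar (H × K) ℂ,
      (((∑ w ∈ Pf H K m, ‖us f m χ w‖ ^ 2) ^ 2 : ℝ) : ℂ) =
      ∑ q ∈ EE f m ×ˢ EE f m, χ (gr f q.1.1 - gr f q.1.2 + (gr f q.2.1 - gr f q.2.2)) := by
    intro χ
    rw [Complex.ofReal_pow, us_sq, sq, sum_mul_sum, ← sum_product']
    apply sum_congr rfl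
    intro q _
    rw [← AddChar.map_add_eq_mul]
  have h2 : ∑ χ : AddChar (H × K) ℂ, (∑ w ∈ Pf H K m, χ w) *
      (((∑ w ∈ Pf H K m, ‖us f m χ w‖ ^ 2) ^ 2 : ℝ) : ℂ) =
      ((((Pf H K m).card : ℝ) *
      ∑ χ ∈ univ.filter (fun χ : AddChar (H × K) ℂ => ∀ w ∈ Pf H K m, χ w = 1),
        (∑ w ∈ Pf H K m, ‖us f m χ w‖ ^ 2) ^ 2 : ℝ) : ℂ) := by
    rw [Complex.ofReal_mul, Complex.ofReal_sum, mul_sum, sum_filter]
    apply sum_congr rfl
    intro χ _
    rw [mB_P_sum]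
    by_cases h : ∀ w ∈ Pf H K m, χ w = 1
    · rw [if_pos h, if_pos h, Complex.ofReal_natCast]
    · rw [if_neg h, if_neg h, zero_mul]
  have h3 : ∑ χ : AddChar (H × K) ℂ, (∑ w ∈ Pf H K m, χ w) *
      (((∑ w ∈ Pf H K m, ‖us f m χ w‖ ^ 2) ^ 2 : ℝ) : ℂ) =
      ∑ w ∈ Pf H K m, ∑ q ∈ EE f m ×ˢ EE f m, ∑ χ : AddChar (H × K) ℂ,
        χ (w + (gr f q.1.1 - gr f q.1.2 + (gr f q.2.1 - gr f q.2.2))) := by
    have h4 : ∀ χ : AddChar (H × K) ℂ, (∑ w ∈ Pf H K m, χ w) *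
        (((∑ w ∈ Pf H K m, ‖us f m χ w‖ ^ 2) ^ 2 : ℝ) : ℂ) =
        ∑ w ∈ Pf H K m, ∑ q ∈ EE f m ×ˢ EE f m,
        χ (w + (gr f q.1.1 - gr f q.1.2 + (gr f q.2.1 - gr f q.2.2))) := by
      intro χ
      rw [h1 χ, sum_mul_sum]
      apply sum_congr rfl
      intro w _
      apply sum_congr rfl
      intro q _
      rw [← AddChar.map_add_eq_mul]
    rw [sum_congr rfl (fun χ _ => h4 χ), sum_comm]
    apply sum_congr rfl
    intro w _
    rw [sum_comm]
  have h5 : ∑ w ∈ Pf H K m, ∑ q ∈ EE f m ×ˢ EE f m, ∑ χ : AddChar (H × K) ℂ,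
        χ (w + (gr f q.1.1 - gr f q.1.2 + (gr f q.2.1 - gr f q.2.2))) =
      (((Fintype.card (H × K) : ℝ) * ((∑ w ∈ Pf H K m, ((EE f m ×ˢ EE f m).filter fun q =>
        w + (gr f q.1.1 - gr f q.1.2 + (gr f q.2.1 - gr f q.2.2)) = 0).card : ℕ) : ℝ) : ℝ) :
        ℂ) := by
    push_cast
    rw [mul_sum]
    apply sum_congr rfl
    intro w _
    rw [sum_congr rfl (fun q _ => AddChar.sum_apply_eq_ite _), ← sum_filter, sum_const,
      nsmul_eq_mul, mul_comm]
  have h6 := h2.symm.trans (h3.trans h5)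
  exact_mod_cast h6

theorem M2_triv {f : H → K} (hf : IsPlanar f) (m : ℕ) :
    ((Pf H K m).card : ℝ) *
      ∑ χ ∈ univ.filter (fun χ : AddChar (H × K) ℂ => ∀ w ∈ Pf H K m, χ w = 1),
        (∑ w ∈ Pf H K m, ‖us f m χ w‖ ^ 2) ^ 2 ≤
      (Fintype.card (H × K) : ℝ) * ((Fintype.card H : ℝ) ^ 2 +
        ((Pf H K m).card : ℝ) * ((EE f m).card : ℝ) +
        (((Pf H K m).card : ℝ) - 2) * (Fintype.card H : ℝ)) := by
  rw [mB_id]
  apply mul_le_mul_of_nonneg_left _ (by positivity)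
  have h0 : (0 : H × K) ∈ Pf H K m := mB_mem.mpr ⟨0, smul_zero m⟩
  have h1 : ∑ w ∈ Pf H K m, ((EE f m ×ˢ EE f m).filter fun q =>
      w + (gr f q.1.1 - gr f q.1.2 + (gr f q.2.1 - gr f q.2.2)) = 0).card ≤
      (Fintype.card H ^ 2 + ((EE f m).filter fun ab => ab.1 ≠ ab.2).card) +
      ((Pf H K m).card - 1) *
        (((EE f m).filter fun ab => ab.1 ≠ ab.2).card + Fintype.card H + Fintype.card H) := by
    rw [← add_sum_erase _ _ h0]
    apply Nat.add_le_add (mB_S0 hf m)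
    rw [← card_erase_of_mem h0, ← smul_eq_mul]
    apply sum_le_card_nsmul
    intro w hw
    exact mB_S1 hf m (ne_of_mem_erase hw)
  have h2 := mB_diag f m
  have h3 : 1 ≤ (Pf H K m).card := card_pos.mpr ⟨0, h0⟩
  have h4 : ((∑ w ∈ Pf H K m, ((EE f m ×ˢ EE f m).filter fun q =>
      w + (gr f q.1.1 - gr f q.1.2 + (gr f q.2.1 - gr f q.2.2)) = 0).card : ℕ) : ℝ) ≤
      (((Fintype.card H ^ 2 + ((EE f m).filter fun ab => ab.1 ≠ ab.2).card) +
      ((Pf H K m).card - 1) *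
        (((EE f m).filter fun ab => ab.1 ≠ ab.2).card + Fintype.card H + Fintype.card H) : ℕ) :
        ℝ) := Nat.cast_le.mpr h1
  refine h4.trans (le_of_eq ?_)
  have h5 : (((EE f m).filter fun ab => ab.1 ≠ ab.2).card : ℝ) =
      ((EE f m).card : ℝ) - (Fintype.card H : ℝ) := by
    have h6 : ((((EE f m).filter fun ab => ab.1 ≠ ab.2).card + Fintype.card H : ℕ) : ℝ) =
        ((EE f m).card : ℝ) := by rw [h2]
    push_cast at h6
    linarith
  push_cast [Nat.cast_sub h3]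
  rw [h5]
  ring

end Pool.Agent.H38.PL3
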