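import Pool.Agent.H38.PL3.Defs
import Pool.Agent.H16.PF3.Mom

/-!
# PL3 SumC: the sum of the local inequality over all `x ∈ H × K`

Every pair `ab` with sum `s` is counted for the `|P| = 9` elements `x` with `s - x ∈ P` (`mom_card_x` in PF3.Mom, private: copy it).
With `q = |H| = |K|`, `Y x = |YY x|`: `∑_x Y x = 9 q²` (`sum_YY`), `∑_x (Y x)² ≤ 90 q²` (`sum_YY_sq`), so `∑_x (Y x - 9)² ≤ 9 q²`; the sum of the
first sums is `9` times the sum over `DD f m`; the sum of the middle terms is `9 |EE f m|` and of the last ones `9 q`.  So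
`36 T + 45 q² ≤ 45 q² + 180 |EE| + 45 q`.
-/

set_option autoImplicit false

namespace Pool.Agent.H38.PL3

open Finset Pool.Agent.H88.Pl Pool.Agent.H16.PF3

private theorem sumc_card_x {H K : Type*} [AddCommGroup H] [AddCommGroup K] [Fintype H]
    [Fintype K] [DecidableEq H] [DecidableEq K] (m : ℕ) (s : H × K) :
    (univ.filter fun x : H × K => s - x ∈ Pf H K m).card = (Pf H K m).card := by
  apply card_bij (fun x _ => s - x)
  · intro x hx
    exact (mem_filter.mp hx).2
  · intro x _ y _ hxy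
    exact sub_right_injective hxy
  · intro y hy
    exact ⟨s - y, mem_filter.mpr ⟨mem_univ _, by rw [sub_sub_cancel]; exact hy⟩,
      sub_sub_cancel _ _⟩

private theorem sumc_swap {H K : Type*} [AddCommGroup H] [AddCommGroup K] [Fintype H]
    [Fintype K] [DecidableEq H] [DecidableEq K] (f : H → K) (m : ℕ) (q : H × H → Prop)
    [DecidablePred q] (w : H × H → ℤ) :
    ∑ x : H × K, ∑ ab ∈ (YY f m x).filter q, w ab =
      ((Pf H K m).card : ℤ) * ∑ ab ∈ univ.filter q, w ab := by
  have h1 : ∀ x : H × K, ∑ ab ∈ (YY f m x).filter q, w ab =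
      ∑ ab ∈ univ.filter q, (if gr f ab.1 + gr f ab.2 - x ∈ Pf H K m then w ab else 0) := by
    intro x
    rw [← sum_filter]
    apply sum_congr _ (fun _ _ => rfl)
    ext ab
    unfold YY
    simp only [mem_filter, mem_univ, true_and]
    exact and_comm
  rw [sum_congr rfl (fun x _ => h1 x), sum_comm, mul_sum]
  apply sum_congr rfl
  intro ab _
  rw [← sum_filter, sum_const, sumc_card_x, nsmul_eq_mul]

theorem sum_cosets {H K : Type*} [AddCommGroup H] [AddCommGroup K] [Fintype H]
    [Fintype K] [DecidableEq H] [DecidableEq K] {f : H → K} (hf : IsPlanar f)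
    (hK : Fintype.card K = Fintype.card H) {m : ℕ} (hP : (Pf H K m).card = 9)
    (hC : ∀ x : H × K,
      4 * (∑ ab ∈ II f m x, (3 - ((NN f m ab.1 ab.2).card : ℤ))) + 45 ≤
        5 * (((YY f m x).card : ℤ) - 9) ^ 2 +
        20 * (((YY f m x).filter fun ab => m • gr f ab.1 = m • gr f ab.2).card : ℤ) +
        5 * (((YY f m x).filter fun ab => ab.1 = ab.2).card : ℤ)) :
    4 * (∑ ab ∈ DD f m, (3 - ((NN f m ab.1 ab.2).card : ℤ))) ≤
      20 * ((EE f m).card : ℤ) + 5 * (Fintype.card H : ℤ) := by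
  have hI : ∀ x : H × K, II f m x =
      (YY f m x).filter fun ab => m • gr f ab.1 ≠ m • gr f ab.2 := by
    intro x
    ext ab
    unfold II YY
    simp only [mem_filter, mem_univ, true_and]
    exact and_comm
  have hT : ∑ x : H × K, ∑ ab ∈ II f m x, (3 - ((NN f m ab.1 ab.2).card : ℤ)) =
      9 * ∑ ab ∈ DD f m, (3 - ((NN f m ab.1 ab.2).card : ℤ)) := by
    rw [sum_congr rfl (fun x _ => by rw [hI x]), sumc_swap, hP]
    rfl
  have hE : ∑ x : H × K,
      (((YY f m x).filter fun ab => m • gr f ab.1 = m • gr f ab.2).card : ℤ) =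
      9 * ((EE f m).card : ℤ) := by
    have h1 := sumc_swap f m (fun ab => m • gr f ab.1 = m • gr f ab.2) (fun _ => 1)
    simp only [sum_const, nsmul_eq_mul, mul_one] at h1
    rw [h1, hP]
    rfl
  have hD : ∑ x : H × K, (((YY f m x).filter fun ab => ab.1 = ab.2).card : ℤ) =
      9 * (Fintype.card H : ℤ) := by
    have h1 := sumc_swap f m (fun ab => ab.1 = ab.2) (fun _ => 1)
    simp only [sum_const, nsmul_eq_mul, mul_one] at h1
    rw [h1, hP]
    have h2 : (univ.filter fun ab : H × H => ab.1 = ab.2).card = Fintype.card H := by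
      rw [← card_univ]
      refine card_bij (fun ab _ => ab.1) (fun _ _ => mem_univ _) ?_ ?_
      · intro a ha b hb hab
        have ha' := (mem_filter.mp ha).2
        have hb' := (mem_filter.mp hb).2
        exact Prod.ext hab (by rw [← ha', ← hb']; exact hab)
      · intro b _
        exact ⟨(b, b), mem_filter.mpr ⟨mem_univ _, rfl⟩, rfl⟩
    rw [h2]
    rfl
  have hY1 := sum_YY f m
  have hY2 := sum_YY_sq hf m
  rw [hP] at hY1 hY2
  set q := Fintype.card H with hq
  have hY1' : ∑ x : H × K, ((YY f m x).card : ℤ) = (q : ℤ) ^ 2 * 9 := by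
    exact_mod_cast hY1
  have hY2' : ∑ x : H × K, ((YY f m x).card : ℤ) ^ 2 ≤ 9 * ((9 + 1) * (q : ℤ) ^ 2) := by
    exact_mod_cast hY2
  have hV : ∑ x : H × K, (((YY f m x).card : ℤ) - 9) ^ 2 ≤ 9 * (q : ℤ) ^ 2 := by
    have e : ∀ x : H × K, (((YY f m x).card : ℤ) - 9) ^ 2 =
        ((YY f m x).card : ℤ) ^ 2 - 18 * ((YY f m x).card : ℤ) + 81 := by
      intro x
      ring
    rw [sum_congr rfl (fun x _ => e x), sum_add_distrib, sum_sub_distrib, ← mul_sum, hY1',
      sum_const, card_univ, Fintype.card_prod, hK, ← hq, nsmul_eq_mul]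
    push_cast
    linarith
  have hS := sum_le_sum (s := (univ : Finset (H × K))) (fun x _ => hC x)
  rw [sum_add_distrib, sum_add_distrib, sum_add_distrib, ← mul_sum, ← mul_sum, ← mul_sum,
    ← mul_sum, hT, hE, hD, sum_const, card_univ, Fintype.card_prod, hK, ← hq,
    nsmul_eq_mul] at hS
  push_cast at hS
  linarith

end Pool.Agent.H38.PL3
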