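import Pool.Agent.H38.PL3.Defs
import Pool.Agent.H16.PF3.VSum

/-!
# PL3 V2: the sum over all characters of the products of different slices, second form

Copy Pool/Agent/H16/PF3/VSum.lean (its lemmas are private) and change only `vsum_bound` to
`vsum_Q f m a b - vsum_R f m p a b / p ≤ if m • gr f a = m • gr f b then 0 else 1 - |NN f m a b| / p`
(first case: both sides are `0`; second case: `vsum_Q ≤ 1` and `vsum_R ≥ |NN|` are shown there) and the last lines of `V_sum`.
-/

set_option autoImplicit false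

namespace Pool.Agent.H38.PL3

open Finset Pool.Agent.H88.Pl Pool.Agent.H16.PF3

section v2

variable {H K : Type*} [AddCommGroup H] [AddCommGroup K] [Fintype H] [Fintype K]
  [DecidableEq H] [DecidableEq K]

private def V2_F (f : H → K) (m : ℕ) (w : H × K) : Finset H := univ.filter (fun h => m • gr f h = w)

private lemma V2_normsq (f : H → K) (m : ℕ) (χ : AddChar (H × K) ℂ) (w : H × K) :
    ((‖us f m χ w‖ ^ 2 : ℝ) : ℂ) = ∑ a ∈ V2_F f m w, ∑ c ∈ V2_F f m w, χ (gr f a - gr f c) := by
  have h1 : ((‖us f m χ w‖ ^ 2 : ℝ) : ℂ) = us f m χ w * (starRingEnd ℂ) (us f m χ w) := by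
    rw [Complex.mul_conj']
    push_cast
    rfl
  rw [h1]
  unfold us
  rw [map_sum, Finset.sum_mul_sum]
  apply Finset.sum_congr rfl
  intro a _
  apply Finset.sum_congr rfl
  intro c _
  rw [← AddChar.map_neg_eq_conj, ← AddChar.map_add_eq_mul, sub_eq_add_neg]

private lemma V2_ind {p : ℕ} [Fact p.Prime] (χ : AddChar (H × K) ℂ) (w w' : H × K)
    (hp : p • (w - w') = 0) :
    (if χ w = χ w' then (0 : ℂ) else 1) = 1 - (1 / (p : ℂ)) * ∑ k ∈ range p, χ (k • (w - w')) := by
  have hp0 : (p : ℂ) ≠ 0 := Nat.cast_ne_zero.2 (Fact.out : p.Prime).ne_zero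
  have hk : ∀ k ∈ range p, χ (k • (w - w')) = (χ (w - w')) ^ k := fun k _ => AddChar.map_nsmul_eq_pow χ k _
  rw [Finset.sum_congr rfl hk]
  have hww : χ w = χ (w - w') * χ w' := by
    rw [← AddChar.map_add_eq_mul, sub_add_cancel]
  have hne : χ w' ≠ 0 := by
    intro h0
    have h2 : χ w' * χ (-w') = 1 := by
      rw [← AddChar.map_add_eq_mul, add_neg_cancel, AddChar.map_zero_eq_one]
    rw [h0, zero_mul] at h2
    exact zero_ne_one h2
  by_cases h : χ w = χ w'
  · rw [if_pos h]
    have h1 : χ (w - w') = 1 := by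
      have h3 : χ (w - w') * χ w' = 1 * χ w' := by rw [← hww, one_mul, h]
      exact mul_right_cancel₀ hne h3
    rw [h1]
    simp only [one_pow, Finset.sum_const, Finset.card_range, nsmul_eq_mul, mul_one]
    field_simp
    ring
  · rw [if_neg h]
    have h1 : χ (w - w') ≠ 1 := by
      intro h2
      apply h
      rw [hww, h2, one_mul]
    have h2 : (∑ k ∈ range p, (χ (w - w')) ^ k) * (χ (w - w') - 1) = 0 := by
      rw [geom_sum_mul, ← AddChar.map_nsmul_eq_pow, hp, AddChar.map_zero_eq_one, sub_self]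
    have h3 : (∑ k ∈ range p, (χ (w - w')) ^ k) = 0 := by
      rcases mul_eq_zero.1 h2 with h4 | h4
      · exact h4
      · exact absurd (sub_eq_zero.1 h4) h1
    rw [h3, mul_zero, sub_zero]

private lemma V2_fib (f : H → K) (m : ℕ) (g : H → ℂ) :
    ∑ w ∈ Pf H K m, ∑ a ∈ V2_F f m w, g a = ∑ a, g a := by
  unfold V2_F
  apply Finset.sum_fiberwise_of_maps_to
  intro a _
  unfold Pf
  exact Finset.mem_image_of_mem _ (Finset.mem_univ _)

/-- the number of solutions -/
private noncomputable def V2_Q (f : H → K) (m : ℕ) (a b : H) : ℝ :=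
  ∑ c ∈ V2_F f m (m • gr f a), ∑ d ∈ V2_F f m (m • gr f b),
    if gr f a - gr f c + (gr f b - gr f d) = 0 then 1 else 0

/-- the number of solutions on the lines -/
private noncomputable def V2_R (f : H → K) (m p : ℕ) (a b : H) : ℝ :=
  ∑ c ∈ V2_F f m (m • gr f a), ∑ d ∈ V2_F f m (m • gr f b), ∑ k ∈ range p,
    if k • (m • gr f a - m • gr f b) + (gr f a - gr f c + (gr f b - gr f d)) = 0 then 1 else 0

private lemma V2_T {p : ℕ} [Fact p.Prime] (f : H → K) (m : ℕ)
    (hpm : ∀ g : H × K, p • m • g = 0) (a b : H) :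
    ∑ χ : AddChar (H × K) ℂ, (if χ (m • gr f a) = χ (m • gr f b) then (0 : ℂ) else 1) *
      ((∑ c ∈ V2_F f m (m • gr f a), χ (gr f a - gr f c)) *
        (∑ d ∈ V2_F f m (m • gr f b), χ (gr f b - gr f d))) =
    (((Fintype.card (H × K) : ℝ) * (V2_Q f m a b - V2_R f m p a b / p) : ℝ) : ℂ) := by
  have hτ : p • (m • gr f a - m • gr f b) = 0 := by
    rw [smul_sub, hpm, hpm, sub_zero]
  have h1 : ∀ χ : AddChar (H × K) ℂ, (if χ (m • gr f a) = χ (m • gr f b) then (0 : ℂ) else 1) *
      ((∑ c ∈ V2_F f m (m • gr f a), χ (gr f a - gr f c)) *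
        (∑ d ∈ V2_F f m (m • gr f b), χ (gr f b - gr f d))) =
      (∑ c ∈ V2_F f m (m • gr f a), ∑ d ∈ V2_F f m (m • gr f b),
        χ (gr f a - gr f c + (gr f b - gr f d))) -
      (1 / (p : ℂ)) * ∑ c ∈ V2_F f m (m • gr f a), ∑ d ∈ V2_F f m (m • gr f b), ∑ k ∈ range p,
        χ (k • (m • gr f a - m • gr f b) + (gr f a - gr f c + (gr f b - gr f d))) := by
    intro χ
    rw [V2_ind χ _ _ hτ, Finset.sum_mul_sum, sub_mul, one_mul]
    congr 1
    · apply Finset.sum_congr rfl
      intro c _
      apply Finset.sum_congr rfl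
      intro d _
      rw [AddChar.map_add_eq_mul]
    · rw [mul_assoc]
      congr 1
      rw [Finset.mul_sum]
      apply Finset.sum_congr rfl
      intro c _
      rw [Finset.mul_sum]
      apply Finset.sum_congr rfl
      intro d _
      rw [Finset.sum_mul]
      apply Finset.sum_congr rfl
      intro k _
      rw [AddChar.map_add_eq_mul, AddChar.map_add_eq_mul]
  rw [Finset.sum_congr rfl (fun χ _ => h1 χ), Finset.sum_sub_distrib, ← Finset.mul_sum]
  have h2 : ∑ χ : AddChar (H × K) ℂ, ∑ c ∈ V2_F f m (m • gr f a), ∑ d ∈ V2_F f m (m • gr f b),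
        χ (gr f a - gr f c + (gr f b - gr f d)) =
      (((Fintype.card (H × K) : ℝ) * V2_Q f m a b : ℝ) : ℂ) := by
    rw [Finset.sum_comm]
    unfold V2_Q
    push_cast
    rw [Finset.mul_sum]
    apply Finset.sum_congr rfl
    intro c _
    rw [Finset.sum_comm, Finset.mul_sum]
    apply Finset.sum_congr rfl
    intro d _
    rw [AddChar.sum_apply_eq_ite]
    split_ifs
    · simp
    · simp
  have h3 : ∑ χ : AddChar (H × K) ℂ, ∑ c ∈ V2_F f m (m • gr f a), ∑ d ∈ V2_F f m (m • gr f b),
        ∑ k ∈ range p, χ (k • (m • gr f a - m • gr f b) + (gr f a - gr f c + (gr f b - gr f d))) =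
      (((Fintype.card (H × K) : ℝ) * V2_R f m p a b : ℝ) : ℂ) := by
    rw [Finset.sum_comm]
    unfold V2_R
    push_cast
    rw [Finset.mul_sum]
    apply Finset.sum_congr rfl
    intro c _
    rw [Finset.sum_comm, Finset.mul_sum]
    apply Finset.sum_congr rfl
    intro d _
    rw [Finset.sum_comm, Finset.mul_sum]
    apply Finset.sum_congr rfl
    intro k _
    rw [AddChar.sum_apply_eq_ite]
    split_ifs
    · simp
    · simp
  rw [h2, h3]
  push_cast
  ring

private lemma V2_memNN (f : H → K) (m : ℕ) (a b : H) (cd : H × H) :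
    cd ∈ NN f m a b ↔ (m • gr f cd.1 = m • gr f a ∧ m • gr f cd.2 = m • gr f b ∧
      ∃ k : ℕ, gr f cd.1 + gr f cd.2 = gr f a + gr f b + k • (m • gr f a - m • gr f b)) := by
  classical
  unfold NN
  simp only [Finset.mem_filter, Finset.mem_univ, true_and]

private lemma V2_bound {p : ℕ} [Fact p.Prime] (f : H → K) (m : ℕ)
    (hpm : ∀ g : H × K, p • m • g = 0)
    (hS : ∀ a b c d : H, gr f a + gr f b = gr f c + gr f d → (a = c ∧ b = d) ∨ (a = d ∧ b = c))
    (a b : H) :
    V2_Q f m a b - V2_R f m p a b / p ≤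
      if m • gr f a = m • gr f b then 0 else 1 - ((NN f m a b).card : ℝ) / (p : ℝ) := by
  have hp0 : (0 : ℝ) < (p : ℝ) := by exact_mod_cast (Fact.out : p.Prime).pos
  by_cases hab : m • gr f a = m • gr f b
  · have h1 : V2_R f m p a b = p * V2_Q f m a b := by
      unfold V2_R V2_Q
      rw [Finset.mul_sum]
      apply Finset.sum_congr rfl
      intro c _
      rw [Finset.mul_sum]
      apply Finset.sum_congr rfl
      intro d _
      have : ∀ k ∈ range p, (if k • (m • gr f a - m • gr f b) + (gr f a - gr f c + (gr f b - gr f d)) = 0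
          then (1 : ℝ) else 0) = if gr f a - gr f c + (gr f b - gr f d) = 0 then 1 else 0 := by
        intro k _
        rw [hab, sub_self, smul_zero, zero_add]
      rw [Finset.sum_congr rfl this, Finset.sum_const, Finset.card_range, nsmul_eq_mul]
    rw [if_pos hab, h1, mul_div_cancel_left₀ _ hp0.ne', sub_self]
  · have hmem : ∀ x y : H, x ∈ V2_F f m (m • gr f y) ↔ m • gr f x = m • gr f y := by
      intro x y
      unfold V2_F
      rw [Finset.mem_filter]
      exact ⟨fun h => h.2, fun h => ⟨Finset.mem_univ _, h⟩⟩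
    have hsol : ∀ c ∈ V2_F f m (m • gr f a), ∀ d ∈ V2_F f m (m • gr f b),
        gr f a - gr f c + (gr f b - gr f d) = 0 → c = a ∧ d = b := by
      intro c hc d hd h
      have h1 : gr f a + gr f b = gr f c + gr f d := by
        rw [← sub_eq_zero]
        rw [← h]
        abel
      rcases hS a b c d h1 with h2 | h2
      · exact ⟨h2.1.symm, h2.2.symm⟩
      · exfalso
        apply hab
        rw [hmem] at hc
        rw [← hc, ← h2.2]
    have hQ : V2_Q f m a b ≤ 1 := by
      unfold V2_Q
      have ha : a ∈ V2_F f m (m • gr f a) := (hmem a a).2 rfl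
      have hb : b ∈ V2_F f m (m • gr f b) := (hmem b b).2 rfl
      rw [Finset.sum_eq_single_of_mem a ha, Finset.sum_eq_single_of_mem b hb]
      · split_ifs
        · exact le_rfl
        · exact zero_le_one
      · intro d hd hdb
        rw [if_neg]
        intro h
        exact hdb (hsol a ha d hd h).2
      · intro c hc hca
        apply Finset.sum_eq_zero
        intro d hd
        rw [if_neg]
        intro h
        exact hca (hsol c hc d hd h).1
    rw [if_neg hab]
    have hτ : p • (m • gr f a - m • gr f b) = 0 := by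
      rw [smul_sub, hpm, hpm, sub_zero]
    have hR : ((NN f m a b).card : ℝ) ≤ V2_R f m p a b := by
      unfold V2_R
      rw [← Finset.sum_product']
      have hsub : NN f m a b ⊆ V2_F f m (m • gr f a) ×ˢ V2_F f m (m • gr f b) := by
        intro cd hcd
        rw [V2_memNN] at hcd
        rw [Finset.mem_product, hmem, hmem]
        exact ⟨hcd.1, hcd.2.1⟩
      have hge : ∀ cd ∈ NN f m a b, (1 : ℝ) ≤ ∑ k ∈ range p,
          if k • (m • gr f a - m • gr f b) + (gr f a - gr f cd.1 + (gr f b - gr f cd.2)) = 0 then 1 else 0 := by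
        intro cd hcd
        rw [V2_memNN] at hcd
        obtain ⟨k, hk⟩ := hcd.2.2
        have hkm : (k % p) • (m • gr f a - m • gr f b) = k • (m • gr f a - m • gr f b) := by
          conv_rhs => rw [← Nat.mod_add_div k p]
          rw [add_smul, mul_comm, mul_smul, hτ, smul_zero, add_zero]
        have hkr : k % p ∈ range p := Finset.mem_range.2 (Nat.mod_lt _ (Fact.out : p.Prime).pos)
        refine le_trans ?_ (Finset.single_le_sum (f := fun k : ℕ =>
          if k • (m • gr f a - m • gr f b) + (gr f a - gr f cd.1 + (gr f b - gr f cd.2)) = 0 then (1 : ℝ) else 0)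
          ?_ hkr)
        · show (1 : ℝ) ≤ if (k % p) • (m • gr f a - m • gr f b) +
            (gr f a - gr f cd.1 + (gr f b - gr f cd.2)) = 0 then (1 : ℝ) else 0
          rw [if_pos]
          rw [hkm]
          have h5 : k • (m • gr f a - m • gr f b) = gr f cd.1 + gr f cd.2 - (gr f a + gr f b) := by
            rw [hk]
            abel
          rw [h5]
          abel
        · intro k' _
          show (0 : ℝ) ≤ if k' • (m • gr f a - m • gr f b) +
            (gr f a - gr f cd.1 + (gr f b - gr f cd.2)) = 0 then (1 : ℝ) else 0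
          split_ifs
          · exact zero_le_one
          · exact le_rfl
      calc ((NN f m a b).card : ℝ) = ∑ cd ∈ NN f m a b, (1 : ℝ) := by
            rw [Finset.sum_const, nsmul_eq_mul, mul_one]
        _ ≤ ∑ cd ∈ NN f m a b, ∑ k ∈ range p,
            (if k • (m • gr f a - m • gr f b) + (gr f a - gr f cd.1 + (gr f b - gr f cd.2)) = 0
              then (1 : ℝ) else 0) := Finset.sum_le_sum hge
        _ ≤ _ := by
            apply Finset.sum_le_sum_of_subset_of_nonneg hsub
            intro cd _ _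
            apply Finset.sum_nonneg
            intro k _
            split_ifs
            · exact zero_le_one
            · exact le_rfl
    have h6 : ((NN f m a b).card : ℝ) / p ≤ V2_R f m p a b / p :=
      div_le_div_of_nonneg_right hR hp0.le
    linarith

end v2

theorem V_sum2 {p : ℕ} [Fact p.Prime] {H K : Type*} [AddCommGroup H] [AddCommGroup K] [Fintype H]
    [Fintype K] [DecidableEq H] [DecidableEq K] (f : H → K) (m : ℕ)
    (hpm : ∀ g : H × K, p • m • g = 0)
    (hS : ∀ a b c d : H, gr f a + gr f b = gr f c + gr f d → (a = c ∧ b = d) ∨ (a = d ∧ b = c)) :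
    ∑ χ : AddChar (H × K) ℂ, ∑ w ∈ Pf H K m, ∑ w' ∈ Pf H K m,
      (if χ w = χ w' then 0 else ‖us f m χ w‖ ^ 2 * ‖us f m χ w'‖ ^ 2) ≤
      (Fintype.card (H × K) : ℝ) *
        ∑ ab ∈ DD f m, (1 - ((NN f m ab.1 ab.2).card : ℝ) / (p : ℝ)) := by
  classical
  have hcx : ((∑ χ : AddChar (H × K) ℂ, ∑ w ∈ Pf H K m, ∑ w' ∈ Pf H K m,
      (if χ w = χ w' then 0 else ‖us f m χ w‖ ^ 2 * ‖us f m χ w'‖ ^ 2) : ℝ) : ℂ) =
      ((∑ a : H, ∑ b : H, (Fintype.card (H × K) : ℝ) * (V2_Q f m a b - V2_R f m p a b / p) : ℝ) : ℂ) := by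
    rw [Complex.ofReal_sum, Complex.ofReal_sum]
    have h1 : ∀ χ : AddChar (H × K) ℂ, ((∑ w ∈ Pf H K m, ∑ w' ∈ Pf H K m,
        (if χ w = χ w' then 0 else ‖us f m χ w‖ ^ 2 * ‖us f m χ w'‖ ^ 2) : ℝ) : ℂ) =
        ∑ a : H, ∑ b : H, (if χ (m • gr f a) = χ (m • gr f b) then (0 : ℂ) else 1) *
          ((∑ c ∈ V2_F f m (m • gr f a), χ (gr f a - gr f c)) *
            (∑ d ∈ V2_F f m (m • gr f b), χ (gr f b - gr f d))) := by
      intro χ
      rw [Complex.ofReal_sum]
      have h2 : ∀ w ∈ Pf H K m, ((∑ w' ∈ Pf H K m,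
          (if χ w = χ w' then 0 else ‖us f m χ w‖ ^ 2 * ‖us f m χ w'‖ ^ 2) : ℝ) : ℂ) =
          ∑ a ∈ V2_F f m w, ∑ b : H, (if χ (m • gr f a) = χ (m • gr f b) then (0 : ℂ) else 1) *
          ((∑ c ∈ V2_F f m (m • gr f a), χ (gr f a - gr f c)) *
            (∑ d ∈ V2_F f m (m • gr f b), χ (gr f b - gr f d))) := by
        intro w _
        rw [Complex.ofReal_sum]
        have h3 : ∀ a ∈ V2_F f m w, (∑ b : H, (if χ (m • gr f a) = χ (m • gr f b) then (0 : ℂ) else 1) *
          ((∑ c ∈ V2_F f m (m • gr f a), χ (gr f a - gr f c)) *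
            (∑ d ∈ V2_F f m (m • gr f b), χ (gr f b - gr f d)))) =
            ∑ w' ∈ Pf H K m, ∑ b ∈ V2_F f m w', (if χ w = χ w' then (0 : ℂ) else 1) *
          ((∑ c ∈ V2_F f m w, χ (gr f a - gr f c)) *
            (∑ d ∈ V2_F f m w', χ (gr f b - gr f d))) := by
          intro a ha
          rw [← V2_fib f m]
          apply Finset.sum_congr rfl
          intro w' _
          apply Finset.sum_congr rfl
          intro b hb
          have ha' : m • gr f a = w := by
            unfold V2_F at ha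
            exact (Finset.mem_filter.1 ha).2
          have hb' : m • gr f b = w' := by
            unfold V2_F at hb
            exact (Finset.mem_filter.1 hb).2
          rw [ha', hb']
        rw [Finset.sum_congr rfl h3, Finset.sum_comm]
        apply Finset.sum_congr rfl
        intro w' _
        have h4 : ((if χ w = χ w' then 0 else ‖us f m χ w‖ ^ 2 * ‖us f m χ w'‖ ^ 2 : ℝ) : ℂ) =
            (if χ w = χ w' then (0 : ℂ) else 1) * (((‖us f m χ w‖ ^ 2 : ℝ) : ℂ) * ((‖us f m χ w'‖ ^ 2 : ℝ) : ℂ)) := by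
          split_ifs
          · rw [zero_mul, Complex.ofReal_zero]
          · rw [one_mul, Complex.ofReal_mul]
        rw [h4, V2_normsq, V2_normsq, Finset.sum_mul_sum, Finset.mul_sum]
        apply Finset.sum_congr rfl
        intro a _
        rw [Finset.mul_sum]
      rw [Finset.sum_congr rfl h2, V2_fib]
    rw [Finset.sum_congr rfl (fun χ _ => h1 χ), Finset.sum_comm]
    apply Finset.sum_congr rfl
    intro a _
    rw [Finset.sum_comm, Complex.ofReal_sum]
    apply Finset.sum_congr rfl
    intro b _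
    exact V2_T f m hpm a b
  rw [Complex.ofReal_injective hcx]
  have hfin : ∑ a : H, ∑ b : H, (Fintype.card (H × K) : ℝ) * (V2_Q f m a b - V2_R f m p a b / p) ≤
      ∑ a : H, ∑ b : H, (Fintype.card (H × K) : ℝ) *
        (if m • gr f a = m • gr f b then 0 else 1 - ((NN f m a b).card : ℝ) / (p : ℝ)) := by
    apply Finset.sum_le_sum
    intro a _
    apply Finset.sum_le_sum
    intro b _
    exact mul_le_mul_of_nonneg_left (V2_bound f m hpm hS a b) (Nat.cast_nonneg _)
  refine hfin.trans (le_of_eq ?_)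
  rw [← Finset.sum_product', ← Finset.mul_sum]
  congr 1
  unfold DD
  rw [Finset.sum_filter]
  apply Finset.sum_congr rfl
  intro ab _
  rw [ite_not]

end Pool.Agent.H38.PL3
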