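import Pool.Agent.H38.PL3.Coset
import Pool.Agent.H38.PL3.SumC
import Pool.Agent.H38.PL3.V2
import Pool.Agent.H38.PL3.MomB

/-!
# PL3 Final3: `|P| = 9` is impossible for `p = 3`, `r ≥ 4`

`q = |H| = |K|`, `E = |EE|` (the pairs in the same slice), `M(χ) = ∑_w ‖us χ w‖²`, `B(χ) = ∑_w ‖us χ w‖⁴`, `V(χ)` the sum over the pairs `w, w'` with
`χ w ≠ χ w'`.  `M² ≤ V + 3 B` if `χ` is not trivial on `P` (`key`), and `M² ≤ 9 B` (`M2_cs`), so `M² ≤ V + 3 B + [χ trivial on P] (2/3) M²`.  Sum over `χ`,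
divide by `q²`: `q² + E - q ≤ D + 3 (2 E - q) + (2/27) (q² + 9 E + 7 q)`, `D = T / 3`, `4 T ≤ 20 E + 5 q`, `E ≤ q + q² / 9`: contradiction for
`q ≥ 81`.
-/

set_option autoImplicit false

namespace Pool.Agent.H38.PL3

open Finset Pool.Agent.H88.Pl Pool.Agent.H16.PF3

theorem no_rank_two_three {r e : ℕ} (hr : 4 ≤ r) (he : 2 ≤ e)
    {H K : Type*} [AddCommGroup H] [AddCommGroup K] [Fintype H] [Fintype K] [DecidableEq H]
    [DecidableEq K] (hH : Fintype.card H = 3 ^ r) (hK : Fintype.card K = 3 ^ r) {f : H → K}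
    (hf : IsPlanar f) (hexp : ∀ g : H × K, 3 ^ e • g = 0)
    (hP : (Pf H K (3 ^ (e - 1))).card = 9) : False := by
  have h3 : Fact (Nat.Prime 3) := ⟨Nat.prime_three⟩
  have hKH : Fintype.card K = Fintype.card H := by rw [hH, hK]
  have hpm : ∀ g : H × K, 3 • 3 ^ (e - 1) • g = 0 := by
    intro g
    rw [← mul_smul, ← pow_succ', show e - 1 + 1 = e by omega]
    exact hexp g
  have hC := fun x0 : H × K => coset_ineq he hH hf hexp hP x0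
  generalize 3 ^ (e - 1) = m at *
  have hT := sum_cosets hf hKH hP hC
  have hV := V_sum2 (p := 3) f m hpm (fun a b c d h => sidon hf h)
  have hM := M2_sum f m
  have hMt := M2_triv hf m
  have hB := B_sum hf m
  have hE := EE_le hf m
  -- abbreviations
  obtain ⟨q, hq⟩ : ∃ q : ℝ, q = (Fintype.card H : ℝ) := ⟨_, rfl⟩
  obtain ⟨E, hEd⟩ : ∃ E : ℝ, E = ((EE f m).card : ℝ) := ⟨_, rfl⟩
  have hG : (Fintype.card (H × K) : ℝ) = q ^ 2 := by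
    rw [Fintype.card_prod, hKH, hq]; push_cast; ring
  have hq4 : (81 : ℝ) ≤ q := by
    rw [hq, hH]
    have h1 : 3 ^ 4 ≤ 3 ^ r := Nat.pow_le_pow_right (by norm_num) hr
    calc (81 : ℝ) = ((3 ^ 4 : ℕ) : ℝ) := by norm_num
      _ ≤ ((3 ^ r : ℕ) : ℝ) := by exact_mod_cast h1
  have hq0 : 0 < q := by linarith
  have hE' : 9 * E ≤ 9 * q + q ^ 2 := by
    rw [hP] at hE
    rw [← hG, hEd, hq]
    exact_mod_cast hE
  let V : AddChar (H × K) ℂ → ℝ := fun χ => ∑ w ∈ Pf H K m, ∑ w' ∈ Pf H K m,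
      (if χ w = χ w' then 0 else ‖us f m χ w‖ ^ 2 * ‖us f m χ w'‖ ^ 2)
  let B : AddChar (H × K) ℂ → ℝ := fun χ => ∑ w ∈ Pf H K m, ‖us f m χ w‖ ^ 4
  let M : AddChar (H × K) ℂ → ℝ := fun χ => ∑ w ∈ Pf H K m, ‖us f m χ w‖ ^ 2
  have hV0 : ∀ χ, 0 ≤ V χ := by
    intro χ
    refine sum_nonneg fun w _ => sum_nonneg fun w' _ => ?_
    split_ifs
    · exact le_rfl
    · positivity
  have hpt : ∀ χ : AddChar (H × K) ℂ, M χ ^ 2 ≤ V χ + 3 * B χ +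
      (if ∀ w ∈ Pf H K m, χ w = 1 then (2 / 3) * M χ ^ 2 else 0) := by
    intro χ
    split_ifs with hχ
    · have h1 : M χ ^ 2 ≤ 9 * B χ := by
        have h2 := M2_cs f m χ
        rw [hP] at h2
        exact_mod_cast h2
      have h2 := hV0 χ
      linarith
    · push Not at hχ
      have h1 : M χ ^ 2 ≤ V χ + 3 * B χ := by
        have h2 := key (p := 3) f m hpm (by rw [hP]; norm_num) χ hχ
        exact_mod_cast h2
      linarith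
  have hsum : ∑ χ, M χ ^ 2 ≤ ∑ χ, V χ + 3 * ∑ χ, B χ + (2 / 3) *
      ∑ χ ∈ univ.filter (fun χ : AddChar (H × K) ℂ => ∀ w ∈ Pf H K m, χ w = 1), M χ ^ 2 := by
    have h1 := sum_le_sum (s := univ) fun χ (_ : χ ∈ univ) => hpt χ
    rw [sum_add_distrib, sum_add_distrib, ← mul_sum, ← sum_filter, ← mul_sum] at h1
    exact h1
  -- collect
  have hV' : ∑ χ, V χ ≤ q ^ 2 * ∑ ab ∈ DD f m, (1 - ((NN f m ab.1 ab.2).card : ℝ) / 3) := by
    rw [← hG]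
    exact_mod_cast hV
  have hB' : ∑ χ, B χ ≤ q ^ 2 * (2 * E - q) := by
    rw [← hG, hEd, hq]
    exact hB
  have hM' : q ^ 2 * (q ^ 2 + E - q) ≤ ∑ χ, M χ ^ 2 := by
    rw [hG, ← hq, ← hEd] at hM
    exact hM
  have hMt' : 9 * ∑ χ ∈ univ.filter (fun χ : AddChar (H × K) ℂ => ∀ w ∈ Pf H K m, χ w = 1),
      M χ ^ 2 ≤ q ^ 2 * (q ^ 2 + 9 * E + 7 * q) := by
    rw [hG, ← hq, ← hEd, hP] at hMt
    have e1 : q ^ 2 * (q ^ 2 + 9 * E + 7 * q) =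
        q ^ 2 * (q ^ 2 + ((9 : ℕ) : ℝ) * E + (((9 : ℕ) : ℝ) - 2) * q) := by
      push_cast
      ring
    rw [e1]
    exact_mod_cast hMt
  have hD : 12 * ∑ ab ∈ DD f m, (1 - ((NN f m ab.1 ab.2).card : ℝ) / 3) ≤ 20 * E + 5 * q := by
    have h1 : ((4 * (∑ ab ∈ DD f m, (3 - ((NN f m ab.1 ab.2).card : ℤ))) : ℤ) : ℝ) ≤
        ((20 * ((EE f m).card : ℤ) + 5 * (Fintype.card H : ℤ) : ℤ) : ℝ) := by
      exact_mod_cast hT
    push_cast at h1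
    rw [← hEd, ← hq] at h1
    have h2 : 12 * ∑ ab ∈ DD f m, (1 - ((NN f m ab.1 ab.2).card : ℝ) / 3) =
        4 * ∑ ab ∈ DD f m, (3 - ((NN f m ab.1 ab.2).card : ℝ)) := by
      rw [mul_sum, mul_sum]
      refine sum_congr rfl fun ab _ => ?_
      ring
    rw [h2]
    exact h1
  obtain ⟨D, hDd⟩ : ∃ D : ℝ, D = ∑ ab ∈ DD f m, (1 - ((NN f m ab.1 ab.2).card : ℝ) / 3) :=
    ⟨_, rfl⟩
  rw [← hDd] at hV' hD
  have h5 : q ^ 2 * (q ^ 2 + E - q) ≤ q ^ 2 * (D + 3 * (2 * E - q) +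
      (2 / 27) * (q ^ 2 + 9 * E + 7 * q)) := by
    have e1 : q ^ 2 * (D + 3 * (2 * E - q) + (2 / 27) * (q ^ 2 + 9 * E + 7 * q)) =
      q ^ 2 * D + 3 * (q ^ 2 * (2 * E - q)) + (2 / 27) * (q ^ 2 * (q ^ 2 + 9 * E + 7 * q)) := by
      ring
    rw [e1]
    linarith
  have h6 := le_of_mul_le_mul_left h5 (by positivity)
  nlinarith

end Pool.Agent.H38.PL3
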