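import Pool.Agent.H38.PL3.Defs
import Pool.Agent.H16.PF3.Low

/-!
# PL3 MomA: the second moment of the second moments, and the slices

`us_sq`: as in `second` (PF3.Low): `∑_{w ∈ P} ‖us χ w‖² = ∑_{(a, b) ∈ EE} χ (gr a - gr b)` (`Complex.mul_conj'`, `AddChar.map_neg_eq_conj`, the private
`low_slices`: copy it).
`M2_sum`: the square of the real number `∑_w ‖us χ w‖²` is `∑_{(a,b),(c,d) ∈ EE} χ (gr a - gr b + (gr c - gr d))`; sum over `χ` (`AddChar.sum_apply_eq_ite`):
`|G|` times the number of `((a,b),(c,d)) ∈ EE²` with `gr a - gr b + (gr c - gr d) = 0`.  These contain `((a,a),(c,c))` (`|H|²` of them) and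
`((a,b),(b,a))`, `a ≠ b` (`|EE| - |H|` of them), disjoint.
`card_EE`: `|EE| = ∑_{w ∈ P} (slice w)²`; `sum_slices`: `∑_{w ∈ P} slice w = |H|`; Cauchy-Schwarz `|H|² ≤ |P| |EE|`; `EE_le` is `sum_slices_sq` of PF3.Low.
`M2_cs`: Cauchy-Schwarz.  `B_sum`: `ta_fourth` (PF3/H88, see the use in PF3.Final) for every slice, `∑ slice² = |EE|`, `∑ slice = |H|`.
-/

set_option autoImplicit false

namespace Pool.Agent.H38.PL3

open Finset Pool.Agent.H88.Pl Pool.Agent.H16.PF3

variable {H K : Type*} [AddCommGroup H] [AddCommGroup K] [Fintype H] [Fintype K]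
  [DecidableEq H] [DecidableEq K]

private theorem mA_slices {M : Type*} [AddCommMonoid M] (f : H → K) (m : ℕ)
    (F : H → H → M) :
    ∑ w ∈ Pf H K m, ∑ a ∈ univ.filter (fun h : H => m • gr f h = w),
      ∑ b ∈ univ.filter (fun h : H => m • gr f h = w), F a b =
    ∑ ab ∈ EE f m, F ab.1 ab.2 := by
  unfold EE
  have h1 : ∀ w ∈ Pf H K m, ∑ a ∈ univ.filter (fun h : H => m • gr f h = w),
      ∑ b ∈ univ.filter (fun h : H => m • gr f h = w), F a b =
      ∑ ab ∈ (univ.filter (fun ab : H × H => m • gr f ab.1 = m • gr f ab.2)).filter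
        (fun ab => m • gr f ab.1 = w), F ab.1 ab.2 := by
    intro w _
    rw [← sum_product']
    apply sum_congr
    · ext ab
      simp only [mem_product, mem_filter, mem_univ, true_and]
      constructor
      · rintro ⟨h1, h2⟩
        exact ⟨by rw [h1, h2], h1⟩
      · rintro ⟨h1, h2⟩
        exact ⟨h2, by rw [← h1, h2]⟩
    · intro _ _
      rfl
  rw [sum_congr rfl h1]
  exact sum_fiberwise_of_maps_to (fun ab _ => mem_image.mpr ⟨_, mem_univ _, rfl⟩) _

private theorem mA_card_EE (f : H → K) (m : ℕ) :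
    ∑ w ∈ Pf H K m, (univ.filter fun h : H => m • gr f h = w).card ^ 2 = (EE f m).card := by
  have h2 := mA_slices f m (fun _ _ => (1 : ℕ))
  simp only [sum_const, smul_eq_mul, mul_one] at h2
  rw [← h2]
  apply sum_congr rfl
  intro w _
  rw [sq]

private theorem mA_sum_slices (f : H → K) (m : ℕ) :
    ∑ w ∈ Pf H K m, (univ.filter fun h : H => m • gr f h = w).card = Fintype.card H := by
  rw [← card_univ]
  symm
  refine card_eq_sum_card_fiberwise fun h _ => ?_
  exact mem_coe.2 (mem_image_of_mem _ (mem_univ _))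

theorem us_sq (f : H → K) (m : ℕ) (χ : AddChar (H × K) ℂ) :
    ((∑ w ∈ Pf H K m, ‖us f m χ w‖ ^ 2 : ℝ) : ℂ) =
      ∑ ab ∈ EE f m, χ (gr f ab.1 - gr f ab.2) := by
  have h1 : ∀ w, ((‖us f m χ w‖ ^ 2 : ℝ) : ℂ) =
      ∑ a ∈ univ.filter (fun h : H => m • gr f h = w),
        ∑ b ∈ univ.filter (fun h : H => m • gr f h = w), χ (gr f a - gr f b) := by
    intro w
    rw [Complex.ofReal_pow, ← Complex.mul_conj']
    unfold us
    rw [map_sum, sum_mul_sum]
    apply sum_congr rfl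
    intro a _
    apply sum_congr rfl
    intro b _
    rw [← AddChar.map_neg_eq_conj, ← AddChar.map_add_eq_mul, sub_eq_add_neg]
  rw [Complex.ofReal_sum, sum_congr rfl (fun w _ => h1 w),
    mA_slices f m (fun a b => χ (gr f a - gr f b))]

omit [Fintype K] in
private theorem mA_diag (f : H → K) (m : ℕ) :
    ((EE f m).filter fun ab => ab.1 ≠ ab.2).card + Fintype.card H = (EE f m).card := by
  have e : (EE f m).filter (fun ab => ab.1 = ab.2) = univ.image (fun a : H => (a, a)) := by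
    ext ⟨a, b⟩
    simp only [EE, mem_filter, mem_univ, true_and, mem_image, Prod.mk.injEq]
    constructor
    · rintro ⟨_, h⟩
      exact ⟨a, rfl, h⟩
    · rintro ⟨c, rfl, rfl⟩
      exact ⟨rfl, rfl⟩
  have h1 := card_filter_add_card_filter_not (s := EE f m) (fun ab => ab.1 = ab.2)
  rw [e, card_image_of_injective _ (fun a b h => congrArg Prod.fst h), card_univ] at h1
  rw [add_comm]
  exact h1

omit [Fintype K] in
private theorem mA_quad (f : H → K) (m : ℕ) :
    Fintype.card H ^ 2 + ((EE f m).filter fun ab => ab.1 ≠ ab.2).card ≤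
      ((EE f m ×ˢ EE f m).filter fun q =>
        gr f q.1.1 - gr f q.1.2 + (gr f q.2.1 - gr f q.2.2) = 0).card := by
  have h1 : (univ.image fun ac : H × H => ((ac.1, ac.1), (ac.2, ac.2))).card =
      Fintype.card H ^ 2 := by
    rw [card_image_of_injective, card_univ, Fintype.card_prod, sq]
    rintro ⟨a, c⟩ ⟨a', c'⟩ h
    simp only [Prod.mk.injEq] at h
    exact Prod.ext h.1.1 h.2.1
  have h2 : (((EE f m).filter fun ab => ab.1 ≠ ab.2).image
      fun ab : H × H => ((ab.1, ab.2), (ab.2, ab.1))).card =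
      ((EE f m).filter fun ab => ab.1 ≠ ab.2).card := by
    rw [card_image_of_injective]
    rintro ⟨a, c⟩ ⟨a', c'⟩ h
    simp only [Prod.mk.injEq] at h
    exact Prod.ext h.1.1 h.1.2
  rw [← h1, ← h2, ← card_union_of_disjoint]
  · apply card_le_card
    intro q hq
    rcases mem_union.mp hq with hq | hq
    · obtain ⟨ac, _, rfl⟩ := mem_image.mp hq
      simp [EE]
    · obtain ⟨ab, hab, rfl⟩ := mem_image.mp hq
      have h3 : m • gr f ab.1 = m • gr f ab.2 := (mem_filter.mp (mem_filter.mp hab).1).2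
      simp [EE, h3]
  · rw [disjoint_left]
    intro q hq hq'
    obtain ⟨ac, _, rfl⟩ := mem_image.mp hq
    obtain ⟨ab, hab, h3⟩ := mem_image.mp hq'
    have h4 := (mem_filter.mp hab).2
    simp only [Prod.mk.injEq] at h3
    exact h4 (h3.1.1.trans h3.1.2.symm)

theorem M2_sum (f : H → K) (m : ℕ) :
    (Fintype.card (H × K) : ℝ) *
        ((Fintype.card H : ℝ) ^ 2 + ((EE f m).card : ℝ) - (Fintype.card H : ℝ)) ≤
      ∑ χ : AddChar (H × K) ℂ, (∑ w ∈ Pf H K m, ‖us f m χ w‖ ^ 2) ^ 2 := by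
  have h1 : ∀ χ : AddChar (H × K) ℂ,
      (((∑ w ∈ Pf H K m, ‖us f m χ w‖ ^ 2) ^ 2 : ℝ) : ℂ) =
      ∑ q ∈ EE f m ×ˢ EE f m, χ (gr f q.1.1 - gr f q.1.2 + (gr f q.2.1 - gr f q.2.2)) := by
    intro χ
    rw [Complex.ofReal_pow, us_sq, sq, sum_mul_sum, ← sum_product']
    apply sum_congr rfl
    intro q _
    rw [← AddChar.map_add_eq_mul]
  have h2 : ((∑ χ : AddChar (H × K) ℂ, (∑ w ∈ Pf H K m, ‖us f m χ w‖ ^ 2) ^ 2 : ℝ) : ℂ) =
      (((Fintype.card (H × K) : ℝ) * (((EE f m ×ˢ EE f m).filter fun q =>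
        gr f q.1.1 - gr f q.1.2 + (gr f q.2.1 - gr f q.2.2) = 0).card : ℝ) : ℝ) : ℂ) := by
    rw [Complex.ofReal_sum, sum_congr rfl (fun χ _ => h1 χ), sum_comm,
      sum_congr rfl (fun q _ => AddChar.sum_apply_eq_ite _), ← sum_filter, sum_const,
      nsmul_eq_mul]
    push_cast
    ring
  have h3 : ∑ χ : AddChar (H × K) ℂ, (∑ w ∈ Pf H K m, ‖us f m χ w‖ ^ 2) ^ 2 =
      (Fintype.card (H × K) : ℝ) * (((EE f m ×ˢ EE f m).filter fun q =>
        gr f q.1.1 - gr f q.1.2 + (gr f q.2.1 - gr f q.2.2) = 0).card : ℝ) := by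
    exact_mod_cast h2
  rw [h3]
  apply mul_le_mul_of_nonneg_left _ (by positivity)
  have h4 := mA_quad f m
  have h5 := mA_diag f m
  have h6 : Fintype.card H ^ 2 + (EE f m).card ≤ ((EE f m ×ˢ EE f m).filter fun q =>
        gr f q.1.1 - gr f q.1.2 + (gr f q.2.1 - gr f q.2.2) = 0).card + Fintype.card H := by
    omega
  have h7 : ((Fintype.card H ^ 2 + (EE f m).card : ℕ) : ℝ) ≤
      ((((EE f m ×ˢ EE f m).filter fun q =>
        gr f q.1.1 - gr f q.1.2 + (gr f q.2.1 - gr f q.2.2) = 0).card + Fintype.card H : ℕ) : ℝ) :=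
    Nat.cast_le.mpr h6
  push_cast at h7
  linarith

theorem M2_cs (f : H → K) (m : ℕ) (χ : AddChar (H × K) ℂ) :
    (∑ w ∈ Pf H K m, ‖us f m χ w‖ ^ 2) ^ 2 ≤
      ((Pf H K m).card : ℝ) * ∑ w ∈ Pf H K m, ‖us f m χ w‖ ^ 4 := by
  have h := sq_sum_le_card_mul_sum_sq (s := Pf H K m) (f := fun w => ‖us f m χ w‖ ^ 2)
  refine h.trans (le_of_eq ?_)
  congr 1
  apply sum_congr rfl
  intro w _
  rw [← pow_mul]

theorem EE_ge (f : H → K) (m : ℕ) :
    Fintype.card H ^ 2 ≤ (Pf H K m).card * (EE f m).card := by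
  have h := sq_sum_le_card_mul_sum_sq (s := Pf H K m)
    (f := fun w => (univ.filter fun h : H => m • gr f h = w).card)
  rw [mA_sum_slices, mA_card_EE] at h
  exact h

theorem EE_le {f : H → K} (hf : IsPlanar f) (m : ℕ) :
    (Pf H K m).card * (EE f m).card ≤
      (Pf H K m).card * Fintype.card H + Fintype.card (H × K) := by
  have h := sum_slices_sq hf m
  rwa [mA_card_EE] at h

theorem B_sum {f : H → K} (hf : IsPlanar f) (m : ℕ) :
    ∑ χ : AddChar (H × K) ℂ, ∑ w ∈ Pf H K m, ‖us f m χ w‖ ^ 4 ≤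
      (Fintype.card (H × K) : ℝ) * (2 * ((EE f m).card : ℝ) - (Fintype.card H : ℝ)) := by
  rw [sum_comm]
  have h1 : ∀ w ∈ Pf H K m, ∑ χ : AddChar (H × K) ℂ, ‖us f m χ w‖ ^ 4 ≤
      (Fintype.card (H × K) : ℝ) *
        (2 * ((univ.filter fun h : H => m • gr f h = w).card : ℝ) ^ 2 -
        (univ.filter fun h : H => m • gr f h = w).card) := by
    intro w _
    exact ta_fourth f hf _
  refine (sum_le_sum h1).trans (le_of_eq ?_)
  rw [← mul_sum, sum_sub_distrib, ← mul_sum]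
  have h2 : ∑ w ∈ Pf H K m, ((univ.filter fun h : H => m • gr f h = w).card : ℝ) =
      (Fintype.card H : ℝ) := by
    exact_mod_cast mA_sum_slices f m
  have h3 : ∑ w ∈ Pf H K m, ((univ.filter fun h : H => m • gr f h = w).card : ℝ) ^ 2 =
      ((EE f m).card : ℝ) := by
    exact_mod_cast mA_card_EE f m
  rw [h2, h3]

end Pool.Agent.H38.PL3
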