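import Pool.Agent.H38.PL3.Defs

/-!
# PL3 Plane3: flags in the affine plane of order 3

Directions `v 0 = (1, 0)`, `v 1 = (0, 1)`, `v 2 = (1, 1)`, `v 3 = (1, 2)`; every nonzero vector of `(ZMod 3)²` is `v d` or `- v d` for exactly one `d`.
For `c : ZMod 3` let `w d c = #{i : δ i = v d, cr (y i) (v d) = c}`.  By `ex` and `inj` (the swap `i ↦ j` with `y j = y i`, `δ j = - δ i` is an involution, hence a
bijection) also `w d c = #{i : δ i = - v d, cr (y i) (v d) = c}`.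
(A) For every `x`: `∑_d w d (cr x (v d)) = if x ∈ X then 3 else 0`: sum `fib` over `k`: `6` or `0`, and `y i + k • δ i = x` has exactly one `k` if
`cr (x - y i) (δ i) = 0` and none otherwise (`Pool.Agent.H16.PF3.mem_line_iff`), so the sum is `2 ∑_d w d (cr x (v d))`.
(B) Put `m d = ∑_c w d c`, `n = ∑_d m d`, `N d c = #(X ∩ {x : cr x (v d) = c})` (at most `3`).  Sum (A) over the three points of the line `cr x (v d) = c`: a line of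
another direction `d'` meets it in exactly one point, so `3 w d c + (n - m d) = 3 N d c`; also `w d c > 0` implies `N d c = 3` (by (A) all three points are in
`X`) and `w d c ≤ 3`, and `∑_c N d c = n`.  (With (A) as nine equations in twelve unknowns everything here is linear: `omega` can do it.)
(C) For each `d` (finite check on `w d 0, w d 1, w d 2, N d 0, N d 1, N d 2 ≤ 3`, with `S = ∑_c (w d c)²`): `n ∉ {1, 2, 4}`; `n = 5 → m d = 2`;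
`n = 3 → S = 3 m d`; `n = 6 → S = 3 m d`; `n = 7 → 3 S + 4 = 7 m d`; `n = 8 → m d = 2 ∧ S = 2`; `n = 9 → m d ≤ S`; `n ≤ 9`.
(D) `card I = 2 n`; the number of `j` with `δ j = δ i`, `cr (y j - y i) (δ i) = 0` is `w d c` for `δ i = ± v d`, `c = cr (y i) (v d)`, so
`∑_i (3 - number) = 6 n - 2 ∑_d ∑_c (w d c)²`.  With `∑_d m d = n` and (C): `n = 5` is impossible (`8 = 5`), and the defect is `0` for `n = 0, 3, 6`; `20` for
`n = 7` (`3 ∑ S = 49 - 16`); `32` for `n = 8`; at most `36` for `n = 9`.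
-/

set_option autoImplicit false

namespace Pool.Agent.H38.PL3

open Finset Pool.Agent.H88.Pl Pool.Agent.H16.PF3

private theorem or3 {w x y z : ℕ} (hx : x ≤ 1) (h1 : w ≤ 3 * x) (hy : y ≤ 1) (h2 : w ≤ 3 * y)
    (hz : z ≤ 1) (h3 : w ≤ 3 * z) : w = 0 ∨ x + y + z = 3 := by omega

private theorem q0 {a b d e s : ℕ} (h : a + b + d + e = s) : a ≤ s := by omega

private theorem q1 {a b d e s : ℕ} (h : a + b + d + e = s) : b ≤ s := by omega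

private theorem q2 {a b d e s : ℕ} (h : a + b + d + e = s) : d ≤ s := by omega

private theorem q3 {a b d e s : ℕ} (h : a + b + d + e = s) : e ≤ s := by omega

private theorem le3 {w x : ℕ} (hx : x ≤ 1) (h1 : w ≤ 3 * x) : w ≤ 3 := by omega

private theorem sum_le3 {x y z : ℕ} (hx : x ≤ 1) (hy : y ≤ 1) (hz : z ≤ 1) : x + y + z ≤ 3 := by omega

/-- the result for one direction -/
private def GG (n m S : ℕ) : Prop :=
  (n = 0 ∧ S = 0) ∨ (n = 3 ∧ S = 3 * m) ∨ (n = 5 ∧ m = 2) ∨ (n = 6 ∧ S = 3 * m) ∨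
      (n = 7 ∧ 3 * S + 4 = 7 * m) ∨ (n = 8 ∧ S = 2 ∧ m = 2) ∨ (n = 9 ∧ m ≤ S)

private def chk (w0 w1 w2 N0 N1 N2 : ℕ) : Bool :=
  let n := N0 + N1 + N2
  let m := w0 + w1 + w2
  let S := w0 * w0 + w1 * w1 + w2 * w2
  !(3 * w0 + n == 3 * N0 + m && 3 * w1 + n == 3 * N1 + m && 3 * w2 + n == 3 * N2 + m &&
    (w0 == 0 || N0 == 3) && (w1 == 0 || N1 == 3) && (w2 == 0 || N2 == 3)) ||
  (n == 0 && S == 0 || n == 3 && S == 3 * m || n == 5 && m == 2 || n == 6 && S == 3 * m ||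
    n == 7 && 3 * S + 4 == 7 * m || n == 8 && S == 2 && m == 2 || n == 9 && Nat.ble m S)

private theorem chk_all : ∀ w0 w1 w2 N0 N1 N2 : Fin 4, chk w0 w1 w2 N0 N1 N2 = true := by
  decide +kernel

private theorem dirn {w0 w1 w2 N0 N1 N2 n m S : ℕ} (h0 : w0 ≤ 3) (h1 : w1 ≤ 3) (h2 : w2 ≤ 3)
    (k0 : N0 ≤ 3) (k1 : N1 ≤ 3) (k2 : N2 ≤ 3) (hn : N0 + N1 + N2 = n) (hm : w0 + w1 + w2 = m)
    (hS : w0 * w0 + w1 * w1 + w2 * w2 = S)
    (e0 : 3 * w0 + n = 3 * N0 + m) (e1 : 3 * w1 + n = 3 * N1 + m) (e2 : 3 * w2 + n = 3 * N2 + m)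
    (f0 : w0 = 0 ∨ N0 = 3) (f1 : w1 = 0 ∨ N1 = 3) (f2 : w2 = 0 ∨ N2 = 3) :
    GG n m S := by
  have h := chk_all ⟨w0, by omega⟩ ⟨w1, by omega⟩ ⟨w2, by omega⟩ ⟨N0, by omega⟩ ⟨N1, by omega⟩
    ⟨N2, by omega⟩
  simp only [chk, hn, hm, hS, Bool.or_eq_true, Bool.and_eq_true, Bool.not_eq_true', beq_iff_eq,
    Nat.ble_eq, Bool.and_eq_false_iff, Bool.or_eq_false_iff, beq_eq_false_iff_ne] at h
  rcases h with h | h
  · exfalso
    rcases h with ((((h | h) | h) | h) | h) | h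
    · exact h e0
    · exact h e1
    · exact h e2
    · exact f0.elim h.1 h.2
    · exact f1.elim h.1 h.2
    · exact f2.elim h.1 h.2
  · rcases h with (((((h | h) | h) | h) | h) | h) | h
    · exact Or.inl h
    · exact Or.inr (Or.inl h)
    · exact Or.inr (Or.inr (Or.inl h))
    · exact Or.inr (Or.inr (Or.inr (Or.inl h)))
    · exact Or.inr (Or.inr (Or.inr (Or.inr (Or.inl h))))
    · exact Or.inr (Or.inr (Or.inr (Or.inr (Or.inr (Or.inl ⟨h.1.1, h.1.2, h.2⟩)))))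
    · exact Or.inr (Or.inr (Or.inr (Or.inr (Or.inr (Or.inr h)))))


private theorem GG0 {m S : ℕ} (h : GG 0 m S) : S = 0 := by unfold GG at h; omega

private theorem GG3 {m S : ℕ} (h : GG 3 m S) : S = 3 * m := by unfold GG at h; omega

private theorem GG5 {m S : ℕ} (h : GG 5 m S) : m = 2 := by unfold GG at h; omega

private theorem GG6 {m S : ℕ} (h : GG 6 m S) : S = 3 * m := by unfold GG at h; omega

private theorem GG7 {m S : ℕ} (h : GG 7 m S) : 3 * S + 4 = 7 * m := by unfold GG at h; omega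

private theorem GG8 {m S : ℕ} (h : GG 8 m S) : S = 2 ∧ m = 2 := by unfold GG at h; omega

private theorem GG9 {m S : ℕ} (h : GG 9 m S) : m ≤ S := by unfold GG at h; omega

private theorem GG_n {n m S : ℕ} (h : GG n m S) :
    n = 0 ∨ n = 3 ∨ n = 5 ∨ n = 6 ∨ n = 7 ∨ n = 8 ∨ n = 9 := by unfold GG at h; omega

private theorem comb {n m0 m1 m2 m3 S0 S1 S2 S3 : ℕ} (hm : m0 + m1 + m2 + m3 = n)
    (D0 : GG n m0 S0) (D1 : GG n m1 S1) (D2 : GG n m2 S2) (D3 : GG n m3 S3) :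
    FF n (6 * (n : ℤ) - 2 * ((S0 + S1 + S2 + S3 : ℕ) : ℤ)) := by
  unfold FF
  rcases GG_n D0 with rfl | rfl | rfl | rfl | rfl | rfl | rfl
  · have := GG0 D0; have := GG0 D1; have := GG0 D2; have := GG0 D3
    clear D0 D1 D2 D3
    omega
  · have := GG3 D0; have := GG3 D1; have := GG3 D2; have := GG3 D3
    clear D0 D1 D2 D3
    omega
  · have := GG5 D0; have := GG5 D1; have := GG5 D2; have := GG5 D3
    clear D0 D1 D2 D3
    omega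
  · have := GG6 D0; have := GG6 D1; have := GG6 D2; have := GG6 D3
    clear D0 D1 D2 D3
    omega
  · have := GG7 D0; have := GG7 D1; have := GG7 D2; have := GG7 D3
    clear D0 D1 D2 D3
    omega
  · have := GG8 D0; have := GG8 D1; have := GG8 D2; have := GG8 D3
    clear D0 D1 D2 D3
    omega
  · have := GG9 D0; have := GG9 D1; have := GG9 D2; have := GG9 D3
    clear D0 D1 D2 D3
    omega

private theorem lin00 {a0 a1 a2 b0 b1 b2 d0 d1 d2 e0 e1 e2 x00 x01 x02 x10 x11 x12 x20 x21 x22 : ℕ}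
    (h00 : a0 + b0 + d0 + e0 = 3 * x00) (h01 : a2 + b0 + d2 + e2 = 3 * x01) (h02 : a1 + b0 + d1 + e1 = 3 * x02)
    (h10 : a0 + b1 + d1 + e2 = 3 * x10) (h11 : a2 + b1 + d0 + e1 = 3 * x11) (h12 : a1 + b1 + d2 + e0 = 3 * x12)
    (h20 : a0 + b2 + d2 + e1 = 3 * x20) (h21 : a2 + b2 + d1 + e0 = 3 * x21) (h22 : a1 + b2 + d0 + e2 = 3 * x22) :
    3 * a0 + (x00 + x01 + x02 + x10 + x11 + x12 + x20 + x21 + x22) = 3 * (x00 + x10 + x20) + (a0 + a1 + a2) := by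
  linarith

private theorem lin01 {a0 a1 a2 b0 b1 b2 d0 d1 d2 e0 e1 e2 x00 x01 x02 x10 x11 x12 x20 x21 x22 : ℕ}
    (h00 : a0 + b0 + d0 + e0 = 3 * x00) (h01 : a2 + b0 + d2 + e2 = 3 * x01) (h02 : a1 + b0 + d1 + e1 = 3 * x02)
    (h10 : a0 + b1 + d1 + e2 = 3 * x10) (h11 : a2 + b1 + d0 + e1 = 3 * x11) (h12 : a1 + b1 + d2 + e0 = 3 * x12)
    (h20 : a0 + b2 + d2 + e1 = 3 * x20) (h21 : a2 + b2 + d1 + e0 = 3 * x21) (h22 : a1 + b2 + d0 + e2 = 3 * x22) :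
    3 * a1 + (x00 + x01 + x02 + x10 + x11 + x12 + x20 + x21 + x22) = 3 * (x02 + x12 + x22) + (a0 + a1 + a2) := by
  linarith

private theorem lin02 {a0 a1 a2 b0 b1 b2 d0 d1 d2 e0 e1 e2 x00 x01 x02 x10 x11 x12 x20 x21 x22 : ℕ}
    (h00 : a0 + b0 + d0 + e0 = 3 * x00) (h01 : a2 + b0 + d2 + e2 = 3 * x01) (h02 : a1 + b0 + d1 + e1 = 3 * x02)
    (h10 : a0 + b1 + d1 + e2 = 3 * x10) (h11 : a2 + b1 + d0 + e1 = 3 * x11) (h12 : a1 + b1 + d2 + e0 = 3 * x12)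
    (h20 : a0 + b2 + d2 + e1 = 3 * x20) (h21 : a2 + b2 + d1 + e0 = 3 * x21) (h22 : a1 + b2 + d0 + e2 = 3 * x22) :
    3 * a2 + (x00 + x01 + x02 + x10 + x11 + x12 + x20 + x21 + x22) = 3 * (x01 + x11 + x21) + (a0 + a1 + a2) := by
  linarith

private theorem lin10 {a0 a1 a2 b0 b1 b2 d0 d1 d2 e0 e1 e2 x00 x01 x02 x10 x11 x12 x20 x21 x22 : ℕ}
    (h00 : a0 + b0 + d0 + e0 = 3 * x00) (h01 : a2 + b0 + d2 + e2 = 3 * x01) (h02 : a1 + b0 + d1 + e1 = 3 * x02)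
    (h10 : a0 + b1 + d1 + e2 = 3 * x10) (h11 : a2 + b1 + d0 + e1 = 3 * x11) (h12 : a1 + b1 + d2 + e0 = 3 * x12)
    (h20 : a0 + b2 + d2 + e1 = 3 * x20) (h21 : a2 + b2 + d1 + e0 = 3 * x21) (h22 : a1 + b2 + d0 + e2 = 3 * x22) :
    3 * b0 + (x00 + x01 + x02 + x10 + x11 + x12 + x20 + x21 + x22) = 3 * (x00 + x01 + x02) + (b0 + b1 + b2) := by
  linarith

private theorem lin11 {a0 a1 a2 b0 b1 b2 d0 d1 d2 e0 e1 e2 x00 x01 x02 x10 x11 x12 x20 x21 x22 : ℕ}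
    (h00 : a0 + b0 + d0 + e0 = 3 * x00) (h01 : a2 + b0 + d2 + e2 = 3 * x01) (h02 : a1 + b0 + d1 + e1 = 3 * x02)
    (h10 : a0 + b1 + d1 + e2 = 3 * x10) (h11 : a2 + b1 + d0 + e1 = 3 * x11) (h12 : a1 + b1 + d2 + e0 = 3 * x12)
    (h20 : a0 + b2 + d2 + e1 = 3 * x20) (h21 : a2 + b2 + d1 + e0 = 3 * x21) (h22 : a1 + b2 + d0 + e2 = 3 * x22) :
    3 * b1 + (x00 + x01 + x02 + x10 + x11 + x12 + x20 + x21 + x22) = 3 * (x10 + x11 + x12) + (b0 + b1 + b2) := by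
  linarith

private theorem lin12 {a0 a1 a2 b0 b1 b2 d0 d1 d2 e0 e1 e2 x00 x01 x02 x10 x11 x12 x20 x21 x22 : ℕ}
    (h00 : a0 + b0 + d0 + e0 = 3 * x00) (h01 : a2 + b0 + d2 + e2 = 3 * x01) (h02 : a1 + b0 + d1 + e1 = 3 * x02)
    (h10 : a0 + b1 + d1 + e2 = 3 * x10) (h11 : a2 + b1 + d0 + e1 = 3 * x11) (h12 : a1 + b1 + d2 + e0 = 3 * x12)
    (h20 : a0 + b2 + d2 + e1 = 3 * x20) (h21 : a2 + b2 + d1 + e0 = 3 * x21) (h22 : a1 + b2 + d0 + e2 = 3 * x22) :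
    3 * b2 + (x00 + x01 + x02 + x10 + x11 + x12 + x20 + x21 + x22) = 3 * (x20 + x21 + x22) + (b0 + b1 + b2) := by
  linarith

private theorem lin20 {a0 a1 a2 b0 b1 b2 d0 d1 d2 e0 e1 e2 x00 x01 x02 x10 x11 x12 x20 x21 x22 : ℕ}
    (h00 : a0 + b0 + d0 + e0 = 3 * x00) (h01 : a2 + b0 + d2 + e2 = 3 * x01) (h02 : a1 + b0 + d1 + e1 = 3 * x02)
    (h10 : a0 + b1 + d1 + e2 = 3 * x10) (h11 : a2 + b1 + d0 + e1 = 3 * x11) (h12 : a1 + b1 + d2 + e0 = 3 * x12)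
    (h20 : a0 + b2 + d2 + e1 = 3 * x20) (h21 : a2 + b2 + d1 + e0 = 3 * x21) (h22 : a1 + b2 + d0 + e2 = 3 * x22) :
    3 * d0 + (x00 + x01 + x02 + x10 + x11 + x12 + x20 + x21 + x22) = 3 * (x00 + x11 + x22) + (d0 + d1 + d2) := by
  linarith

private theorem lin21 {a0 a1 a2 b0 b1 b2 d0 d1 d2 e0 e1 e2 x00 x01 x02 x10 x11 x12 x20 x21 x22 : ℕ}
    (h00 : a0 + b0 + d0 + e0 = 3 * x00) (h01 : a2 + b0 + d2 + e2 = 3 * x01) (h02 : a1 + b0 + d1 + e1 = 3 * x02)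
    (h10 : a0 + b1 + d1 + e2 = 3 * x10) (h11 : a2 + b1 + d0 + e1 = 3 * x11) (h12 : a1 + b1 + d2 + e0 = 3 * x12)
    (h20 : a0 + b2 + d2 + e1 = 3 * x20) (h21 : a2 + b2 + d1 + e0 = 3 * x21) (h22 : a1 + b2 + d0 + e2 = 3 * x22) :
    3 * d1 + (x00 + x01 + x02 + x10 + x11 + x12 + x20 + x21 + x22) = 3 * (x02 + x10 + x21) + (d0 + d1 + d2) := by
  linarith

private theorem lin22 {a0 a1 a2 b0 b1 b2 d0 d1 d2 e0 e1 e2 x00 x01 x02 x10 x11 x12 x20 x21 x22 : ℕ}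
    (h00 : a0 + b0 + d0 + e0 = 3 * x00) (h01 : a2 + b0 + d2 + e2 = 3 * x01) (h02 : a1 + b0 + d1 + e1 = 3 * x02)
    (h10 : a0 + b1 + d1 + e2 = 3 * x10) (h11 : a2 + b1 + d0 + e1 = 3 * x11) (h12 : a1 + b1 + d2 + e0 = 3 * x12)
    (h20 : a0 + b2 + d2 + e1 = 3 * x20) (h21 : a2 + b2 + d1 + e0 = 3 * x21) (h22 : a1 + b2 + d0 + e2 = 3 * x22) :
    3 * d2 + (x00 + x01 + x02 + x10 + x11 + x12 + x20 + x21 + x22) = 3 * (x01 + x12 + x20) + (d0 + d1 + d2) := by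
  linarith

private theorem lin30 {a0 a1 a2 b0 b1 b2 d0 d1 d2 e0 e1 e2 x00 x01 x02 x10 x11 x12 x20 x21 x22 : ℕ}
    (h00 : a0 + b0 + d0 + e0 = 3 * x00) (h01 : a2 + b0 + d2 + e2 = 3 * x01) (h02 : a1 + b0 + d1 + e1 = 3 * x02)
    (h10 : a0 + b1 + d1 + e2 = 3 * x10) (h11 : a2 + b1 + d0 + e1 = 3 * x11) (h12 : a1 + b1 + d2 + e0 = 3 * x12)
    (h20 : a0 + b2 + d2 + e1 = 3 * x20) (h21 : a2 + b2 + d1 + e0 = 3 * x21) (h22 : a1 + b2 + d0 + e2 = 3 * x22) :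
    3 * e0 + (x00 + x01 + x02 + x10 + x11 + x12 + x20 + x21 + x22) = 3 * (x00 + x12 + x21) + (e0 + e1 + e2) := by
  linarith

private theorem lin31 {a0 a1 a2 b0 b1 b2 d0 d1 d2 e0 e1 e2 x00 x01 x02 x10 x11 x12 x20 x21 x22 : ℕ}
    (h00 : a0 + b0 + d0 + e0 = 3 * x00) (h01 : a2 + b0 + d2 + e2 = 3 * x01) (h02 : a1 + b0 + d1 + e1 = 3 * x02)
    (h10 : a0 + b1 + d1 + e2 = 3 * x10) (h11 : a2 + b1 + d0 + e1 = 3 * x11) (h12 : a1 + b1 + d2 + e0 = 3 * x12)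
    (h20 : a0 + b2 + d2 + e1 = 3 * x20) (h21 : a2 + b2 + d1 + e0 = 3 * x21) (h22 : a1 + b2 + d0 + e2 = 3 * x22) :
    3 * e1 + (x00 + x01 + x02 + x10 + x11 + x12 + x20 + x21 + x22) = 3 * (x02 + x11 + x20) + (e0 + e1 + e2) := by
  linarith

private theorem lin32 {a0 a1 a2 b0 b1 b2 d0 d1 d2 e0 e1 e2 x00 x01 x02 x10 x11 x12 x20 x21 x22 : ℕ}
    (h00 : a0 + b0 + d0 + e0 = 3 * x00) (h01 : a2 + b0 + d2 + e2 = 3 * x01) (h02 : a1 + b0 + d1 + e1 = 3 * x02)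
    (h10 : a0 + b1 + d1 + e2 = 3 * x10) (h11 : a2 + b1 + d0 + e1 = 3 * x11) (h12 : a1 + b1 + d2 + e0 = 3 * x12)
    (h20 : a0 + b2 + d2 + e1 = 3 * x20) (h21 : a2 + b2 + d1 + e0 = 3 * x21) (h22 : a1 + b2 + d0 + e2 = 3 * x22) :
    3 * e2 + (x00 + x01 + x02 + x10 + x11 + x12 + x20 + x21 + x22) = 3 * (x01 + x10 + x22) + (e0 + e1 + e2) := by
  linarith

private theorem linm {a0 a1 a2 b0 b1 b2 d0 d1 d2 e0 e1 e2 x00 x01 x02 x10 x11 x12 x20 x21 x22 : ℕ}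
    (h00 : a0 + b0 + d0 + e0 = 3 * x00) (h01 : a2 + b0 + d2 + e2 = 3 * x01) (h02 : a1 + b0 + d1 + e1 = 3 * x02)
    (h10 : a0 + b1 + d1 + e2 = 3 * x10) (h11 : a2 + b1 + d0 + e1 = 3 * x11) (h12 : a1 + b1 + d2 + e0 = 3 * x12)
    (h20 : a0 + b2 + d2 + e1 = 3 * x20) (h21 : a2 + b2 + d1 + e0 = 3 * x21) (h22 : a1 + b2 + d0 + e2 = 3 * x22) :
    (a0 + a1 + a2) + (b0 + b1 + b2) + (d0 + d1 + d2) + (e0 + e1 + e2) = x00 + x01 + x02 + x10 + x11 + x12 + x20 + x21 + x22 := by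
  linarith

private theorem fin4 {a0 a1 a2 b0 b1 b2 d0 d1 d2 e0 e1 e2 x00 x01 x02 x10 x11 x12 x20 x21 x22 : ℕ}
    (g00 : x00 ≤ 1) (g01 : x01 ≤ 1) (g02 : x02 ≤ 1) 
    (g10 : x10 ≤ 1) (g11 : x11 ≤ 1) (g12 : x12 ≤ 1) (g20 : x20 ≤ 1) (g21 : x21 ≤ 1) (g22 : x22 ≤ 1)
    (h00 : a0 + b0 + d0 + e0 = 3 * x00) (h01 : a2 + b0 + d2 + e2 = 3 * x01) (h02 : a1 + b0 + d1 + e1 = 3 * x02)
    (h10 : a0 + b1 + d1 + e2 = 3 * x10) (h11 : a2 + b1 + d0 + e1 = 3 * x11) (h12 : a1 + b1 + d2 + e0 = 3 * x12)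
    (h20 : a0 + b2 + d2 + e1 = 3 * x20) (h21 : a2 + b2 + d1 + e0 = 3 * x21) (h22 : a1 + b2 + d0 + e2 = 3 * x22) :
    FF (x00 + x01 + x02 + x10 + x11 + x12 + x20 + x21 + x22)
      (6 * ((x00 + x01 + x02 + x10 + x11 + x12 + x20 + x21 + x22 : ℕ) : ℤ) -
        2 * (((a0 * a0 + a1 * a1 + a2 * a2) + (b0 * b0 + b1 * b1 + b2 * b2) +
          (d0 * d0 + d1 * d1 + d2 * d2) + (e0 * e0 + e1 * e1 + e2 * e2) : ℕ) : ℤ)) := by
  refine comb (linm h00 h01 h02 h10 h11 h12 h20 h21 h22) ?_ ?_ ?_ ?_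
  · exact dirn (N0 := x00 + x10 + x20) (N1 := x02 + x12 + x22) (N2 := x01 + x11 + x21)
      (le3 g00 (q0 h00)) (le3 g02 (q0 h02)) (le3 g01 (q0 h01)) (sum_le3 g00 g10 g20) (sum_le3 g02 g12 g22) (sum_le3 g01 g11 g21)
      (by ring) rfl rfl (lin00 h00 h01 h02 h10 h11 h12 h20 h21 h22)
      (lin01 h00 h01 h02 h10 h11 h12 h20 h21 h22) (lin02 h00 h01 h02 h10 h11 h12 h20 h21 h22)
      (or3 g00 (q0 h00) g10 (q0 h10) g20 (q0 h20))
      (or3 g02 (q0 h02) g12 (q0 h12) g22 (q0 h22))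
      (or3 g01 (q0 h01) g11 (q0 h11) g21 (q0 h21))
  · exact dirn (N0 := x00 + x01 + x02) (N1 := x10 + x11 + x12) (N2 := x20 + x21 + x22)
      (le3 g00 (q1 h00)) (le3 g10 (q1 h10)) (le3 g20 (q1 h20)) (sum_le3 g00 g01 g02) (sum_le3 g10 g11 g12) (sum_le3 g20 g21 g22)
      (by ring) rfl rfl (lin10 h00 h01 h02 h10 h11 h12 h20 h21 h22)
      (lin11 h00 h01 h02 h10 h11 h12 h20 h21 h22) (lin12 h00 h01 h02 h10 h11 h12 h20 h21 h22)
      (or3 g00 (q1 h00) g01 (q1 h01) g02 (q1 h02))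
      (or3 g10 (q1 h10) g11 (q1 h11) g12 (q1 h12))
      (or3 g20 (q1 h20) g21 (q1 h21) g22 (q1 h22))
  · exact dirn (N0 := x00 + x11 + x22) (N1 := x02 + x10 + x21) (N2 := x01 + x12 + x20)
      (le3 g00 (q2 h00)) (le3 g02 (q2 h02)) (le3 g01 (q2 h01)) (sum_le3 g00 g11 g22) (sum_le3 g02 g10 g21) (sum_le3 g01 g12 g20)
      (by ring) rfl rfl (lin20 h00 h01 h02 h10 h11 h12 h20 h21 h22)
      (lin21 h00 h01 h02 h10 h11 h12 h20 h21 h22) (lin22 h00 h01 h02 h10 h11 h12 h20 h21 h22)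
      (or3 g00 (q2 h00) g11 (q2 h11) g22 (q2 h22))
      (or3 g02 (q2 h02) g10 (q2 h10) g21 (q2 h21))
      (or3 g01 (q2 h01) g12 (q2 h12) g20 (q2 h20))
  · exact dirn (N0 := x00 + x12 + x21) (N1 := x02 + x11 + x20) (N2 := x01 + x10 + x22)
      (le3 g00 (q3 h00)) (le3 g02 (q3 h02)) (le3 g01 (q3 h01)) (sum_le3 g00 g12 g21) (sum_le3 g02 g11 g20) (sum_le3 g01 g10 g22)
      (by ring) rfl rfl (lin30 h00 h01 h02 h10 h11 h12 h20 h21 h22)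
      (lin31 h00 h01 h02 h10 h11 h12 h20 h21 h22) (lin32 h00 h01 h02 h10 h11 h12 h20 h21 h22)
      (or3 g00 (q3 h00) g12 (q3 h12) g21 (q3 h21))
      (or3 g02 (q3 h02) g11 (q3 h11) g20 (q3 h20))
      (or3 g01 (q3 h01) g10 (q3 h10) g22 (q3 h22))

private theorem sum3 (f : ZMod 3 → ℕ) : ∑ a, f a = f 0 + f 1 + f 2 := Fin.sum_univ_three f

private theorem sum3z (f : ZMod 3 → ℤ) : ∑ a, f a = f 0 + f 1 + f 2 := Fin.sum_univ_three f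

section

variable {I : Type*} [Fintype I] (y δ : I → ZMod 3 × ZMod 3)

/-- number of flags with vector `v` on the line `c` -/
private def Wf (v : ZMod 3 × ZMod 3) (c : ZMod 3) : ℕ :=
  (univ.filter fun i => δ i = v ∧ cr (y i) v = c).card

private theorem cr_sub (u w v : ZMod 3 × ZMod 3) : cr (u - w) v = cr u v - cr w v := by
  unfold cr
  show (u.1 - w.1) * v.2 - (u.2 - w.2) * v.1 = u.1 * v.2 - u.2 * v.1 - (w.1 * v.2 - w.2 * v.1)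
  ring

private theorem Wf_zero (ne : ∀ i, δ i ≠ 0) (c : ZMod 3) : Wf y δ 0 c = 0 := by
  unfold Wf
  rw [card_eq_zero, filter_eq_empty_iff]
  rintro i _ ⟨h, _⟩
  exact ne i h

private theorem Wf_neg (ex : ∀ i, ∃ j, y j = y i ∧ δ j = - δ i)
    (inj : ∀ i j, y i = y j → δ i = δ j → i = j) (v : ZMod 3 × ZMod 3) (c : ZMod 3) :
    Wf y δ (-v) (-c) = Wf y δ v c := by
  choose g hg using ex
  have hgg : ∀ i, g (g i) = i := by
    intro i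
    refine inj _ _ ?_ ?_
    · rw [(hg _).1, (hg _).1]
    · rw [(hg _).2, (hg _).2, neg_neg]
  have hcr : ∀ u w : ZMod 3 × ZMod 3, cr u (-w) = - cr u w := by
    intro u w
    unfold cr
    show u.1 * (-w.2) - u.2 * (-w.1) = -(u.1 * w.2 - u.2 * w.1)
    ring
  unfold Wf
  refine card_bij' (fun i _ => g i) (fun i _ => g i) ?_ ?_ (fun i _ => hgg i) (fun i _ => hgg i)
  · intro i hi
    rw [mem_filter] at hi ⊢
    refine ⟨mem_univ _, ?_, ?_⟩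
    · rw [(hg i).2, hi.2.1, neg_neg]
    · have := hi.2.2
      rw [hcr] at this
      rw [(hg i).1]
      exact neg_injective this
  · intro i hi
    rw [mem_filter] at hi ⊢
    refine ⟨mem_univ _, ?_, ?_⟩
    · rw [(hg i).2, hi.2.1]
    · rw [(hg i).1, hcr, hi.2.2]

private theorem Wf_through {X : Finset (ZMod 3 × ZMod 3)} (ne : ∀ i, δ i ≠ 0)
    (fib : ∀ (k : ZMod 3) (x : ZMod 3 × ZMod 3),
      (univ.filter fun i => y i + k • δ i = x).card = if x ∈ X then 2 else 0)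
    (x : ZMod 3 × ZMod 3) :
    ∑ v : ZMod 3 × ZMod 3, Wf y δ v (cr x v) = 6 * (if x ∈ X then 1 else 0) := by
  classical
  have h0 : ∑ v : ZMod 3 × ZMod 3, Wf y δ v (cr x v) =
      (univ.filter fun i => cr (x - y i) (δ i) = 0).card := by
    rw [card_eq_sum_card_fiberwise (f := δ) (t := univ) fun _ _ => mem_coe.2 (mem_univ _)]
    refine sum_congr rfl fun v _ => ?_
    unfold Wf
    rw [filter_filter]
    congr 1
    refine filter_congr fun i _ => ?_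
    rw [cr_sub]
    constructor
    · rintro ⟨h1, h2⟩
      refine ⟨?_, h1⟩
      rw [h1, h2, sub_self]
    · rintro ⟨h1, h2⟩
      refine ⟨h2, ?_⟩
      rw [h2] at h1
      exact (sub_eq_zero.1 h1).symm
  have h1 : (univ.filter fun i => cr (x - y i) (δ i) = 0) =
      (univ : Finset (ZMod 3)).biUnion fun k => univ.filter fun i => y i + k • δ i = x := by
    ext i
    rw [mem_filter, mem_biUnion, mem_line_iff (ne i)]
    constructor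
    · rintro ⟨_, k, hk⟩
      exact ⟨k, mem_univ _, mem_filter.2 ⟨mem_univ _, hk.symm⟩⟩
    · rintro ⟨k, _, hk⟩
      exact ⟨mem_univ _, k, (mem_filter.1 hk).2.symm⟩
  rw [h0, h1, card_biUnion]
  · rw [sum_congr rfl fun k _ => fib k x, sum_const, card_univ, ZMod.card, smul_eq_mul]
    split_ifs <;> rfl
  · intro k _ k' _ hne
    refine disjoint_left.2 fun i hi hi' => ?_
    have h2 := add_left_cancel ((mem_filter.1 hi).2.trans (mem_filter.1 hi').2.symm)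
    have h3 : (k - k') • δ i = 0 := by rw [sub_smul, h2, sub_self]
    have h4 : (k - k') * (δ i).1 = 0 := congrArg Prod.fst h3
    have h5 : (k - k') * (δ i).2 = 0 := congrArg Prod.snd h3
    have h6 : k - k' ≠ 0 := sub_ne_zero.2 hne
    exact ne i (Prod.ext ((mul_eq_zero.1 h4).resolve_left h6) ((mul_eq_zero.1 h5).resolve_left h6))

private theorem Wf_card {X : Finset (ZMod 3 × ZMod 3)}
    (fib : ∀ (k : ZMod 3) (x : ZMod 3 × ZMod 3),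
      (univ.filter fun i => y i + k • δ i = x).card = if x ∈ X then 2 else 0) :
    Fintype.card I = 2 * ∑ x : ZMod 3 × ZMod 3, (if x ∈ X then 1 else 0) := by
  have h1 : Fintype.card I = ∑ x : ZMod 3 × ZMod 3, (univ.filter fun i => y i = x).card := by
    rw [← card_univ]
    exact card_eq_sum_card_fiberwise fun _ _ => mem_coe.2 (mem_univ _)
  rw [h1, mul_sum]
  refine sum_congr rfl fun x _ => ?_
  have h2 := fib 0 x
  simp only [zero_smul, add_zero] at h2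
  rw [h2]
  split_ifs <;> rfl

private theorem Wf_T :
    ∑ i, (3 - ((univ.filter fun j => δ j = δ i ∧ cr (y j - y i) (δ i) = 0).card : ℤ)) =
      3 * (Fintype.card I : ℤ) - ∑ v : ZMod 3 × ZMod 3, ∑ c, (Wf y δ v c : ℤ) * Wf y δ v c := by
  classical
  rw [sum_sub_distrib, sum_const, card_univ]
  have h1 : ∀ i, ((univ.filter fun j => δ j = δ i ∧ cr (y j - y i) (δ i) = 0).card : ℤ) =
      Wf y δ (δ i) (cr (y i) (δ i)) := by
    intro i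
    unfold Wf
    congr 2
    refine filter_congr fun j _ => ?_
    rw [cr_sub, sub_eq_zero]
  rw [sum_congr rfl fun i _ => h1 i, ← Fintype.sum_prod_type' (f := fun v c => (Wf y δ v c : ℤ) * Wf y δ v c),
    ← sum_fiberwise_of_maps_to (s := univ) (t := univ) (g := fun i => (δ i, cr (y i) (δ i)))
      fun _ _ => mem_univ _]
  have h2 : ∀ p : (ZMod 3 × ZMod 3) × ZMod 3,
      ∑ i ∈ univ.filter (fun i => (δ i, cr (y i) (δ i)) = p), (Wf y δ (δ i) (cr (y i) (δ i)) : ℤ) =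
        (Wf y δ p.1 p.2 : ℤ) * Wf y δ p.1 p.2 := by
    rintro ⟨v, c⟩
    have h3 : ∀ i ∈ univ.filter (fun i => (δ i, cr (y i) (δ i)) = (v, c)),
        (Wf y δ (δ i) (cr (y i) (δ i)) : ℤ) = Wf y δ v c := by
      intro i hi
      have h4 := (mem_filter.1 hi).2
      rw [Prod.mk.injEq] at h4
      rw [h4.2, h4.1]
    rw [sum_congr rfl h3, sum_const, nsmul_eq_mul]
    congr 2
    unfold Wf
    congr 1
    refine filter_congr fun i _ => ?_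
    rw [Prod.mk.injEq]
    constructor
    · rintro ⟨h5, h6⟩
      exact ⟨h5, by rw [← h5]; exact h6⟩
    · rintro ⟨h5, h6⟩
      exact ⟨h5, by rw [h5]; exact h6⟩
  rw [sum_congr rfl fun p _ => h2 p]
  simp only [nsmul_eq_mul]
  ring

end

private theorem fin5 (W : ZMod 3 × ZMod 3 → ZMod 3 → ℕ) (X : Finset (ZMod 3 × ZMod 3))
    (h0 : ∀ c, W 0 c = 0) (hneg : ∀ v c, W (-v) (-c) = W v c)
    (hA : ∀ x, ∑ v : ZMod 3 × ZMod 3, W v (cr x v) = 6 * (if x ∈ X then 1 else 0)) :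
    FF (∑ x : ZMod 3 × ZMod 3, (if x ∈ X then 1 else 0))
      (6 * ((∑ x : ZMod 3 × ZMod 3, (if x ∈ X then 1 else 0) : ℕ) : ℤ) -
        ∑ v : ZMod 3 × ZMod 3, ∑ c, (W v c : ℤ) * W v c) := by
  obtain ⟨χ, hχ⟩ : ∃ χ : ZMod 3 × ZMod 3 → ℕ, χ = fun x => if x ∈ X then 1 else 0 := ⟨_, rfl⟩
  have hχ1 : ∀ x, χ x ≤ 1 := by
    intro x
    rw [hχ]
    change (if x ∈ X then 1 else 0) ≤ 1
    split_ifs <;> omega
  have hA' : ∀ x, ∑ v : ZMod 3 × ZMod 3, W v (cr x v) = 6 * χ x := by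
    intro x
    rw [hχ]
    exact hA x
  have e1 : (∑ x : ZMod 3 × ZMod 3, (if x ∈ X then 1 else 0) : ℕ) = ∑ x : ZMod 3 × ZMod 3, χ x := by
    rw [hχ]
  rw [e1]
  have z0 : W (0, 0) 0 = 0 := h0 0
  have z1 : W (0, 0) 1 = 0 := h0 1
  have z2 : W (0, 0) 2 = 0 := h0 2
  have r00 : W (2, 0) 0 = W (1, 0) 0 := hneg (1, 0) 0
  have r01 : W (2, 0) 2 = W (1, 0) 1 := hneg (1, 0) 1
  have r02 : W (2, 0) 1 = W (1, 0) 2 := hneg (1, 0) 2
  have r10 : W (0, 2) 0 = W (0, 1) 0 := hneg (0, 1) 0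
  have r11 : W (0, 2) 2 = W (0, 1) 1 := hneg (0, 1) 1
  have r12 : W (0, 2) 1 = W (0, 1) 2 := hneg (0, 1) 2
  have r20 : W (2, 2) 0 = W (1, 1) 0 := hneg (1, 1) 0
  have r21 : W (2, 2) 2 = W (1, 1) 1 := hneg (1, 1) 1
  have r22 : W (2, 2) 1 = W (1, 1) 2 := hneg (1, 1) 2
  have r30 : W (2, 1) 0 = W (1, 2) 0 := hneg (1, 2) 0
  have r31 : W (2, 1) 2 = W (1, 2) 1 := hneg (1, 2) 1
  have r32 : W (2, 1) 1 = W (1, 2) 2 := hneg (1, 2) 2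
  have s00 : (W (0, 0) 0 + W (0, 1) 0 + W (0, 2) 0) + (W (1, 0) 0 + W (1, 1) 0 + W (1, 2) 0) + (W (2, 0) 0 + W (2, 1) 0 + W (2, 2) 0) = 6 * χ (0, 0) := by
    have h := hA' (0, 0)
    rw [Fintype.sum_prod_type, sum3, sum3, sum3, sum3] at h
    exact h
  have s01 : (W (0, 0) 0 + W (0, 1) 0 + W (0, 2) 0) + (W (1, 0) 2 + W (1, 1) 2 + W (1, 2) 2) + (W (2, 0) 1 + W (2, 1) 1 + W (2, 2) 1) = 6 * χ (0, 1) := by
    have h := hA' (0, 1)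
    rw [Fintype.sum_prod_type, sum3, sum3, sum3, sum3] at h
    exact h
  have s02 : (W (0, 0) 0 + W (0, 1) 0 + W (0, 2) 0) + (W (1, 0) 1 + W (1, 1) 1 + W (1, 2) 1) + (W (2, 0) 2 + W (2, 1) 2 + W (2, 2) 2) = 6 * χ (0, 2) := by
    have h := hA' (0, 2)
    rw [Fintype.sum_prod_type, sum3, sum3, sum3, sum3] at h
    exact h
  have s10 : (W (0, 0) 0 + W (0, 1) 1 + W (0, 2) 2) + (W (1, 0) 0 + W (1, 1) 1 + W (1, 2) 2) + (W (2, 0) 0 + W (2, 1) 1 + W (2, 2) 2) = 6 * χ (1, 0) := by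
    have h := hA' (1, 0)
    rw [Fintype.sum_prod_type, sum3, sum3, sum3, sum3] at h
    exact h
  have s11 : (W (0, 0) 0 + W (0, 1) 1 + W (0, 2) 2) + (W (1, 0) 2 + W (1, 1) 0 + W (1, 2) 1) + (W (2, 0) 1 + W (2, 1) 2 + W (2, 2) 0) = 6 * χ (1, 1) := by
    have h := hA' (1, 1)
    rw [Fintype.sum_prod_type, sum3, sum3, sum3, sum3] at h
    exact h
  have s12 : (W (0, 0) 0 + W (0, 1) 1 + W (0, 2) 2) + (W (1, 0) 1 + W (1, 1) 2 + W (1, 2) 0) + (W (2, 0) 2 + W (2, 1) 0 + W (2, 2) 1) = 6 * χ (1, 2) := by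
    have h := hA' (1, 2)
    rw [Fintype.sum_prod_type, sum3, sum3, sum3, sum3] at h
    exact h
  have s20 : (W (0, 0) 0 + W (0, 1) 2 + W (0, 2) 1) + (W (1, 0) 0 + W (1, 1) 2 + W (1, 2) 1) + (W (2, 0) 0 + W (2, 1) 2 + W (2, 2) 1) = 6 * χ (2, 0) := by
    have h := hA' (2, 0)
    rw [Fintype.sum_prod_type, sum3, sum3, sum3, sum3] at h
    exact h
  have s21 : (W (0, 0) 0 + W (0, 1) 2 + W (0, 2) 1) + (W (1, 0) 2 + W (1, 1) 1 + W (1, 2) 0) + (W (2, 0) 1 + W (2, 1) 0 + W (2, 2) 2) = 6 * χ (2, 1) := by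
    have h := hA' (2, 1)
    rw [Fintype.sum_prod_type, sum3, sum3, sum3, sum3] at h
    exact h
  have s22 : (W (0, 0) 0 + W (0, 1) 2 + W (0, 2) 1) + (W (1, 0) 1 + W (1, 1) 0 + W (1, 2) 2) + (W (2, 0) 2 + W (2, 1) 1 + W (2, 2) 0) = 6 * χ (2, 2) := by
    have h := hA' (2, 2)
    rw [Fintype.sum_prod_type, sum3, sum3, sum3, sum3] at h
    exact h
  have e2 : ∑ x : ZMod 3 × ZMod 3, χ x = (χ (0, 0) + χ (0, 1) + χ (0, 2)) + (χ (1, 0) + χ (1, 1) + χ (1, 2)) + (χ (2, 0) + χ (2, 1) + χ (2, 2)) := by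
    rw [Fintype.sum_prod_type, sum3, sum3, sum3, sum3]
  have e3 : ∑ v : ZMod 3 × ZMod 3, ∑ c, (W v c : ℤ) * W v c = (((W (0, 0) 0 : ℤ) * W (0, 0) 0 + (W (0, 0) 1 : ℤ) * W (0, 0) 1 + (W (0, 0) 2 : ℤ) * W (0, 0) 2) + ((W (0, 1) 0 : ℤ) * W (0, 1) 0 + (W (0, 1) 1 : ℤ) * W (0, 1) 1 + (W (0, 1) 2 : ℤ) * W (0, 1) 2) + ((W (0, 2) 0 : ℤ) * W (0, 2) 0 + (W (0, 2) 1 : ℤ) * W (0, 2) 1 + (W (0, 2) 2 : ℤ) * W (0, 2) 2)) + (((W (1, 0) 0 : ℤ) * W (1, 0) 0 + (W (1, 0) 1 : ℤ) * W (1, 0) 1 + (W (1, 0) 2 : ℤ) * W (1, 0) 2) + ((W (1, 1) 0 : ℤ) * W (1, 1) 0 + (W (1, 1) 1 : ℤ) * W (1, 1) 1 + (W (1, 1) 2 : ℤ) * W (1, 1) 2) + ((W (1, 2) 0 : ℤ) * W (1, 2) 0 + (W (1, 2) 1 : ℤ) * W (1, 2) 1 + (W (1, 2) 2 : ℤ) * W (1, 2) 2)) + (((W (2, 0) 0 : ℤ) * W (2, 0) 0 + (W (2, 0) 1 : ℤ) * W (2, 0) 1 + (W (2, 0) 2 : ℤ) * W (2, 0) 2) + ((W (2, 1) 0 : ℤ) * W (2, 1) 0 + (W (2, 1) 1 : ℤ) * W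 (2, 1) 1 + (W (2, 1) 2 : ℤ) * W (2, 1) 2) + ((W (2, 2) 0 : ℤ) * W (2, 2) 0 + (W (2, 2) 1 : ℤ) * W (2, 2) 1 + (W (2, 2) 2 : ℤ) * W (2, 2) 2)) := by
    rw [Fintype.sum_prod_type, sum3z]
    simp only [sum3z]
  have key := fin4 (a0 := W (1, 0) 0) (a1 := W (1, 0) 1) (a2 := W (1, 0) 2) (b0 := W (0, 1) 0) (b1 := W (0, 1) 1) (b2 := W (0, 1) 2) (d0 := W (1, 1) 0) (d1 := W (1, 1) 1) (d2 := W (1, 1) 2) (e0 := W (1, 2) 0) (e1 := W (1, 2) 1) (e2 := W (1, 2) 2) (x00 := χ (0, 0)) (x01 := χ (0, 1)) (x02 := χ (0, 2)) (x10 := χ (1, 0)) (x11 := χ (1, 1)) (x12 := χ (1, 2)) (x20 := χ (2, 0)) (x21 := χ (2, 1)) (x22 := χ (2, 2))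
    (hχ1 _) (hχ1 _) (hχ1 _) (hχ1 _) (hχ1 _) (hχ1 _) (hχ1 _) (hχ1 _) (hχ1 _) (by omega) (by omega) (by omega) (by omega) (by omega) (by omega) (by omega) (by omega) (by omega)
  have e4 : ∑ x : ZMod 3 × ZMod 3, χ x = χ (0, 0) + χ (0, 1) + χ (0, 2) + χ (1, 0) + χ (1, 1) + χ (1, 2) + χ (2, 0) + χ (2, 1) + χ (2, 2) := by
    rw [e2]
    omega
  rw [e4, e3, z0, z1, z2, r00, r01, r02, r10, r11, r12, r20, r21, r22, r30, r31, r32]
  refine (congrArg₂ FF rfl ?_).mp key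
  push_cast
  ring

theorem plane3 {I : Type*} [Fintype I] (y δ : I → ZMod 3 × ZMod 3)
    (X : Finset (ZMod 3 × ZMod 3)) (ne : ∀ i, δ i ≠ 0)
    (fib : ∀ (k : ZMod 3) (x : ZMod 3 × ZMod 3),
      (univ.filter fun i => y i + k • δ i = x).card = if x ∈ X then 2 else 0)
    (ex : ∀ i, ∃ j, y j = y i ∧ δ j = - δ i)
    (inj : ∀ i j, y i = y j → δ i = δ j → i = j) :
    ∃ n : ℕ, Fintype.card I = 2 * n ∧
      FF n (∑ i, (3 - ((univ.filter fun j => δ j = δ i ∧ cr (y j - y i) (δ i) = 0).card : ℤ))) := by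
  refine ⟨_, Wf_card y δ fib, ?_⟩
  have h := fin5 (Wf y δ) X (Wf_zero y δ ne) (Wf_neg y δ ex inj) (Wf_through y δ ne fib)
  rw [Wf_T, Wf_card y δ fib]
  have e : (3 : ℤ) * ((2 * ∑ x : ZMod 3 × ZMod 3, (if x ∈ X then 1 else 0) : ℕ) : ℤ) =
      6 * ((∑ x : ZMod 3 × ZMod 3, (if x ∈ X then 1 else 0) : ℕ) : ℤ) := by
    push_cast
    ring
  rw [e]
  exact h

end Pool.Agent.H38.PL3
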